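import Mathlib
import Pool.Agent.K6.H72.FL.Core

/-! Linear maps which are, modulo a line, the sum of the identity and a hyperbolic map: uniform closing. -/

set_option autoImplicit false

open scoped Topology ContDiff Manifold
open Set Metric Filter

noncomputable section

namespace Pool.Agent.K6.H72.LF

open Pool.Agent.H718R2.G

/-- The subspace `S` is invariant under `A` and contracted exponentially by the iterates of `A`. -/
def Contr {k : ℕ} (A : V k →L[ℝ] V k) (S : Submodule ℝ (V k)) (C μ : ℝ) : Prop :=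
  ∀ y ∈ S, A y ∈ S ∧ ∀ j : ℕ, ‖A^[j] y‖ ≤ C * μ ^ j * ‖y‖

/-- The subspace `S` is invariant under `A` and expanded exponentially by the iterates of `A`. -/
def Expd {k : ℕ} (A : V k →L[ℝ] V k) (S : Submodule ℝ (V k)) (C μ : ℝ) : Prop :=
  ∀ z ∈ S, A z ∈ S ∧ ∀ j : ℕ, ‖z‖ ≤ C * μ ^ j * ‖A^[j] z‖

/-- The linear map `A` is the identity on `S`, modulo the line `ℝ v`. -/
def IdMod {k : ℕ} (A : V k →L[ℝ] V k) (S : Submodule ℝ (V k)) (v : V k) : Prop :=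
  ∀ x ∈ S, ∃ c : ℝ, A x - x = c • v

/-- The vector space `ℝᵏ` is the sum of the three subspaces. -/
def IsSum {k : ℕ} (E Es Eu : Submodule ℝ (V k)) : Prop :=
  ∀ w, ∃ x ∈ E, ∃ y ∈ Es, ∃ z ∈ Eu, w = x + y + z

/-- Modulo the line `ℝ v`, the linear map `A` of `ℝᵏ` is the sum of the identity and a hyperbolic
map: `ℝᵏ = E + Es + Eu` with `A x - x ∈ ℝ v` for `x ∈ E`; `Es` is invariant and contracted by the
iterates of `A`, `Eu` is invariant and expanded by the iterates of `A`. -/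
def IdPlusHyp {k : ℕ} (A : V k →L[ℝ] V k) (v : V k) : Prop :=
  ∃ (E Es Eu : Submodule ℝ (V k)) (C μ : ℝ), 0 < C ∧ 0 < μ ∧ μ < 1 ∧ IsSum E Es Eu ∧
    IdMod A E v ∧ Contr A Es C μ ∧ Expd A Eu C μ

/-- Periodic pseudo-orbits of `A` with one jump `w` are closed by small corrections: `d` moves the
points, the translation `p` the map, and `e` are jumps along the line `ℝ v`. -/
def Corr {k : ℕ} (A : V k →L[ℝ] V k) (v : V k) (B : ℝ) (m : ℕ) (w : V k) : Prop :=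
  ∃ (p : V k) (d : ℕ → V k) (e : ℕ → ℝ), ‖p‖ ≤ B ∧ (∀ i ≤ m, ‖d i‖ ≤ B) ∧ (∀ i < m, |e i| ≤ B) ∧
    (∀ i < m, d (i + 1) = A (d i) + p + e i • v) ∧ d m = d 0 - w

lemma Corr.add {k : ℕ} {A : V k →L[ℝ] V k} {v : V k} {B B' : ℝ} {m : ℕ} {w w' : V k}
    (h : Corr A v B m w) (h' : Corr A v B' m w') : Corr A v (B + B') m (w + w') := by
  obtain ⟨p, d, e, h1, h2, h3, h4, h5⟩ := h
  obtain ⟨p', d', e', h1', h2', h3', h4', h5'⟩ := h'
  refine ⟨p + p', fun i => d i + d' i, fun i => e i + e' i, ?_, ?_, ?_, ?_, ?_⟩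
  · exact (norm_add_le _ _).trans (add_le_add h1 h1')
  · exact fun i hi => (norm_add_le _ _).trans (add_le_add (h2 i hi) (h2' i hi))
  · exact fun i hi => (abs_add_le _ _).trans (add_le_add (h3 i hi) (h3' i hi))
  · intro i hi
    show d (i + 1) + d' (i + 1) = _
    rw [h4 i hi, h4' i hi, map_add, add_smul]
    abel
  · show d m + d' m = d 0 + d' 0 - (w + w')
    rw [h5, h5']
    abel

/-- the part on which `A` is the identity modulo `v` -/
lemma corr_id {k : ℕ} {A : V k →L[ℝ] V k} {v : V k} (hv : v ≠ 0) {m : ℕ} (hm : 1 ≤ m) {w : V k}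
    (hw : ∃ c : ℝ, A w - w = c • v) :
    Corr A v ((1 + (‖A‖ + 1) / ‖v‖) * ‖w‖) m w := by
  obtain ⟨c, hc⟩ := hw
  have hv0 : 0 < ‖v‖ := norm_pos_iff.2 hv
  have hm0 : (0 : ℝ) < m := by exact_mod_cast hm
  have hm1 : (1 : ℝ) ≤ m := by exact_mod_cast hm
  have hcb : |c| ≤ (‖A‖ + 1) / ‖v‖ * ‖w‖ := by
    have h1 : |c| * ‖v‖ = ‖A w - w‖ := by rw [hc, norm_smul, Real.norm_eq_abs]
    have h2 : ‖A w - w‖ ≤ (‖A‖ + 1) * ‖w‖ := by
      refine (norm_sub_le _ _).trans ?_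
      have := A.le_opNorm w
      linarith
    rw [div_mul_eq_mul_div, le_div_iff₀ hv0, h1]
    exact h2
  have hq : 0 ≤ (‖A‖ + 1) / ‖v‖ * ‖w‖ := by positivity
  have hr : ∀ i ≤ m, |(i : ℝ) / m| ≤ 1 := by
    intro i hi
    have h1 : (i : ℝ) ≤ m := by exact_mod_cast hi
    rw [abs_of_nonneg (by positivity), div_le_one hm0]
    exact h1
  refine ⟨-((1 : ℝ) / m) • w, fun i => -((i : ℝ) / m) • w, fun i => (i : ℝ) / m * c, ?_, ?_, ?_, ?_, ?_⟩
  · rw [norm_smul, norm_neg, Real.norm_eq_abs, abs_of_pos (by positivity)]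
    have h1 : (1 : ℝ) / m ≤ 1 := by rw [div_le_one hm0]; exact hm1
    have h2 := mul_le_mul_of_nonneg_right h1 (norm_nonneg w)
    nlinarith
  · intro i hi
    show ‖-((i : ℝ) / m) • w‖ ≤ _
    rw [norm_smul, norm_neg, Real.norm_eq_abs]
    have h2 := mul_le_mul_of_nonneg_right (hr i hi) (norm_nonneg w)
    nlinarith
  · intro i hi
    show |(i : ℝ) / m * c| ≤ _
    rw [abs_mul]
    have h2 := mul_le_mul_of_nonneg_right (hr i hi.le) (abs_nonneg c)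
    have h3 := norm_nonneg w
    nlinarith
  · intro i hi
    show -(((i + 1 : ℕ) : ℝ) / m) • w = A (-((i : ℝ) / m) • w) + -((1 : ℝ) / m) • w + ((i : ℝ) / m * c) • v
    rw [map_smul, mul_smul, ← hc]
    push_cast
    rw [add_div, smul_sub]
    module
  · show -((m : ℝ) / m) • w = -(((0 : ℕ) : ℝ) / m) • w - w
    rw [div_self hm0.ne']
    simp

/-- A contraction in the mean. -/
lemma exists_contr {k : ℕ} {A : V k →L[ℝ] V k} {S : Submodule ℝ (V k)} {C μ : ℝ} (hC : 0 < C)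
    (hμ0 : 0 < μ) (hμ1 : μ < 1) (hS : ∀ y ∈ S, A y ∈ S ∧ ∀ j : ℕ, ‖A^[j] y‖ ≤ C * μ ^ j * ‖y‖)
    {m : ℕ} (hm : 1 ≤ m) {w : V k} (hw : w ∈ S) :
    ∃ d ∈ S, A^[m] d = d - w ∧ ∀ i : ℕ, ‖A^[i] d‖ ≤ C * (C / (1 - μ)) * ‖w‖ := by
  have hit : ∀ (i : ℕ) (x : V k), A^[i] x = (A ^ i : V k →L[ℝ] V k) x := by
    intro i
    induction i with
    | zero => intro x; rfl
    | succ i ih => intro x; rw [Function.iterate_succ_apply', pow_succ', ih]; rfl
  have hSi : ∀ (i : ℕ), ∀ x ∈ S, A^[i] x ∈ S := by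
    intro i
    induction i with
    | zero => intro x hx; exact hx
    | succ i ih => intro x hx; rw [Function.iterate_succ_apply]; exact ih _ (hS x hx).1
  -- the map `1 - A^m` on `S`
  let T : S →ₗ[ℝ] S :=
    LinearMap.id - ((A ^ m : V k →L[ℝ] V k) : V k →ₗ[ℝ] V k).restrict (p := S) (q := S)
      (fun x hx => by
        have := hSi m x hx
        rw [hit] at this
        exact this)
  have hT : ∀ x : S, ((T x : S) : V k) = x - A^[m] x := by
    intro x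
    rw [hit]
    rfl
  have hpow : ∀ (j : ℕ) (x : V k), A^[m] x = x → A^[j * m] x = x := by
    intro j x hx
    induction j with
    | zero => simp
    | succ j ih => rw [add_mul, one_mul, Function.iterate_add_apply, hx, ih]
  have htend : Tendsto (fun j : ℕ => C * μ ^ (j * m)) atTop (𝓝 0) := by
    have h1 : Tendsto (fun j : ℕ => μ ^ (j * m)) atTop (𝓝 0) :=
      (tendsto_pow_atTop_nhds_zero_of_lt_one hμ0.le hμ1).comp
        (tendsto_id.atTop_mul_const' (by omega))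
    simpa using h1.const_mul C
  have hinj : Function.Injective T := by
    rw [injective_iff_map_eq_zero]
    intro x hx
    have h1 : (x : V k) - A^[m] (x : V k) = 0 := by rw [← hT x, hx]; rfl
    have h2 : A^[m] (x : V k) = x := (sub_eq_zero.1 h1).symm
    have h3 : ∀ j : ℕ, ‖(x : V k)‖ ≤ C * μ ^ (j * m) * ‖(x : V k)‖ := by
      intro j
      have h4 := (hS x x.2).2 (j * m)
      rwa [hpow j x h2] at h4
    have h5 : ‖(x : V k)‖ ≤ 0 := by
      have h6 : Tendsto (fun j : ℕ => C * μ ^ (j * m) * ‖(x : V k)‖) atTop (𝓝 (0 * ‖(x : V k)‖)) :=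
        htend.mul_const _
      rw [zero_mul] at h6
      exact ge_of_tendsto' h6 h3
    exact Subtype.ext (norm_le_zero_iff.1 h5)
  obtain ⟨d, hd⟩ := (LinearMap.injective_iff_surjective.1 hinj) ⟨w, hw⟩
  have hd' : A^[m] (d : V k) = d - w := by
    have h1 := hT d
    rw [hd] at h1
    have h2 : w = (d : V k) - A^[m] (d : V k) := h1
    rw [h2]
    abel
  refine ⟨d, d.2, hd', ?_⟩
  -- a priori bound
  have hsum : ∀ j : ℕ, A^[j * m] (d : V k) = d - ∑ l ∈ Finset.range j, A^[l * m] w := by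
    intro j
    induction j with
    | zero => simp
    | succ j ih =>
      rw [add_mul, one_mul, Function.iterate_add_apply, hd', hit (j * m), map_sub, ← hit, ← hit, ih,
        Finset.sum_range_succ]
      abel
  have hb : ∀ j : ℕ, ‖(d : V k)‖ ≤ C * μ ^ (j * m) * ‖(d : V k)‖ + C / (1 - μ) * ‖w‖ := by
    intro j
    have h1 : (d : V k) = A^[j * m] (d : V k) + ∑ l ∈ Finset.range j, A^[l * m] w := by
      rw [hsum j]; abel
    have h2 : ‖(d : V k)‖ ≤ ‖A^[j * m] (d : V k)‖ + ∑ l ∈ Finset.range j, ‖A^[l * m] w‖ := by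
      calc ‖(d : V k)‖ = ‖A^[j * m] (d : V k) + ∑ l ∈ Finset.range j, A^[l * m] w‖ := by rw [← h1]
        _ ≤ _ := (norm_add_le _ _).trans (add_le_add le_rfl (norm_sum_le _ _))
    have h3 : ∑ l ∈ Finset.range j, ‖A^[l * m] w‖ ≤ C / (1 - μ) * ‖w‖ := by
      calc ∑ l ∈ Finset.range j, ‖A^[l * m] w‖ ≤ ∑ l ∈ Finset.range j, C * μ ^ l * ‖w‖ := by
            refine Finset.sum_le_sum fun l _ => ((hS w hw).2 (l * m)).trans ?_
            have h4 : μ ^ (l * m) ≤ μ ^ l :=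
              pow_le_pow_of_le_one hμ0.le hμ1.le (Nat.le_mul_of_pos_right l (by omega))
            have h5 := mul_le_mul_of_nonneg_left h4 hC.le
            exact mul_le_mul_of_nonneg_right h5 (norm_nonneg w)
        _ = C * (∑ l ∈ Finset.range j, μ ^ l) * ‖w‖ := by
            rw [Finset.mul_sum, Finset.sum_mul]
        _ ≤ C * (1 - μ)⁻¹ * ‖w‖ := by
            have h4 : ∑ l ∈ Finset.range j, μ ^ l ≤ (1 - μ)⁻¹ := by
              rw [← tsum_geometric_of_lt_one hμ0.le hμ1]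
              exact (summable_geometric_of_lt_one hμ0.le hμ1).sum_le_tsum _
                (fun i _ => pow_nonneg hμ0.le i)
            exact mul_le_mul_of_nonneg_right (mul_le_mul_of_nonneg_left h4 hC.le) (norm_nonneg w)
        _ = C / (1 - μ) * ‖w‖ := by rw [div_eq_mul_inv]
    exact h2.trans (add_le_add ((hS d d.2).2 (j * m)) h3)
  have hbd : ‖(d : V k)‖ ≤ C / (1 - μ) * ‖w‖ := by
    have h6 : Tendsto (fun j : ℕ => C * μ ^ (j * m) * ‖(d : V k)‖ + C / (1 - μ) * ‖w‖) atTop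
        (𝓝 (0 * ‖(d : V k)‖ + C / (1 - μ) * ‖w‖)) := (htend.mul_const _).add_const _
    rw [zero_mul, zero_add] at h6
    exact ge_of_tendsto' h6 hb
  intro i
  calc ‖A^[i] (d : V k)‖ ≤ C * μ ^ i * ‖(d : V k)‖ := (hS d d.2).2 i
    _ ≤ C * 1 * ‖(d : V k)‖ := by
        gcongr
        exact pow_le_one₀ hμ0.le hμ1.le
    _ ≤ C * 1 * (C / (1 - μ) * ‖w‖) := by
        gcongr
    _ = C * (C / (1 - μ)) * ‖w‖ := by ring

/-- the contracted part -/
lemma corr_contr {k : ℕ} {A : V k →L[ℝ] V k} {v : V k} {S : Submodule ℝ (V k)} {C μ : ℝ} (hC : 0 < C)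
    (hμ0 : 0 < μ) (hμ1 : μ < 1) (hS : ∀ y ∈ S, A y ∈ S ∧ ∀ j : ℕ, ‖A^[j] y‖ ≤ C * μ ^ j * ‖y‖)
    {m : ℕ} (hm : 1 ≤ m) {w : V k} (hw : w ∈ S) : Corr A v (C * (C / (1 - μ)) * ‖w‖) m w := by
  obtain ⟨d, _, hd, hb⟩ := exists_contr hC hμ0 hμ1 hS hm hw
  have h1 : 0 < 1 - μ := by linarith
  refine ⟨0, fun i => A^[i] d, fun _ => 0, ?_, fun i _ => hb i, ?_, ?_, hd⟩
  · rw [norm_zero]; positivity
  · intro i _; rw [abs_zero]; positivity
  · intro i _
    show A^[i + 1] d = _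
    rw [Function.iterate_succ_apply']
    simp

/-- the expanded part -/
lemma corr_exp {k : ℕ} {A : V k →L[ℝ] V k} {v : V k} {S : Submodule ℝ (V k)} {C μ : ℝ} (hC : 0 < C)
    (hμ0 : 0 < μ) (hμ1 : μ < 1) (hS : ∀ y ∈ S, A y ∈ S ∧ ∀ j : ℕ, ‖y‖ ≤ C * μ ^ j * ‖A^[j] y‖)
    {m : ℕ} (hm : 1 ≤ m) {w : V k} (hw : w ∈ S) : Corr A v (C * (C / (1 - μ)) * ‖w‖) m w := by
  -- the inverse of `A` on `S`
  let T : S →ₗ[ℝ] S := (A : V k →ₗ[ℝ] V k).restrict (p := S) (q := S) (fun x hx => (hS x hx).1)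
  have hT : ∀ x : S, ((T x : S) : V k) = A x := fun _ => rfl
  have hinj : Function.Injective T := by
    rw [injective_iff_map_eq_zero]
    intro x hx
    have h1 : A (x : V k) = 0 := by rw [← hT x, hx]; rfl
    have h2 := (hS x x.2).2 1
    rw [Function.iterate_one, h1, norm_zero, mul_zero] at h2
    exact Subtype.ext (norm_le_zero_iff.1 h2)
  have hsurj : Function.Surjective T := LinearMap.injective_iff_surjective.1 hinj
  let Te : S ≃ₗ[ℝ] S := LinearEquiv.ofBijective T ⟨hinj, hsurj⟩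
  obtain ⟨π, hπ⟩ : ∃ π : V k →ₗ[ℝ] S, ∀ x : S, π x = x := by
    obtain ⟨π, hπ⟩ := S.exists_isCompl
    exact ⟨Submodule.linearProjOfIsCompl S π hπ, fun x =>
      Submodule.linearProjOfIsCompl_apply_left hπ x⟩
  let B' : V k →ₗ[ℝ] V k := S.subtype ∘ₗ Te.symm.toLinearMap ∘ₗ π
  let B : V k →L[ℝ] V k := LinearMap.toContinuousLinearMap B'
  have hBx : ∀ x (hx : x ∈ S), B x = ((Te.symm ⟨x, hx⟩ : S) : V k) := by
    intro x hx
    show ((Te.symm (π x) : S) : V k) = _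
    rw [hπ ⟨x, hx⟩]
  have hBS : ∀ x ∈ S, B x ∈ S := by
    intro x hx
    rw [hBx x hx]
    exact Subtype.mem _
  have hAB : ∀ x ∈ S, A (B x) = x := by
    intro x hx
    rw [hBx x hx, ← hT]
    have : Te (Te.symm ⟨x, hx⟩) = ⟨x, hx⟩ := Te.apply_symm_apply _
    exact congrArg Subtype.val this
  have hBi : ∀ (j : ℕ), ∀ x ∈ S, B^[j] x ∈ S ∧ A^[j] (B^[j] x) = x := by
    intro j
    induction j with
    | zero => intro x hx; exact ⟨hx, rfl⟩
    | succ j ih =>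
      intro x hx
      rw [Function.iterate_succ_apply' B, Function.iterate_succ_apply A,
        hAB _ (ih x hx).1]
      exact ⟨hBS _ (ih x hx).1, (ih x hx).2⟩
  have hSB : ∀ y ∈ S, B y ∈ S ∧ ∀ j : ℕ, ‖B^[j] y‖ ≤ C * μ ^ j * ‖y‖ := by
    intro y hy
    refine ⟨hBS y hy, fun j => ?_⟩
    have h1 := (hS _ (hBi j y hy).1).2 j
    rwa [(hBi j y hy).2] at h1
  obtain ⟨d, hdS, hd, hb⟩ := exists_contr hC hμ0 hμ1 hSB hm (S.neg_mem hw)
  have h1 : 0 < 1 - μ := by linarith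
  rw [norm_neg] at hb
  refine ⟨0, fun i => B^[m - i] d, fun _ => 0, ?_, fun i _ => hb _, ?_, ?_, ?_⟩
  · rw [norm_zero]; positivity
  · intro i _; rw [abs_zero]; positivity
  · intro i hi
    show B^[m - (i + 1)] d = A (B^[m - i] d) + 0 + (0 : ℝ) • v
    have h2 : m - i = (m - (i + 1)) + 1 := by omega
    rw [h2, Function.iterate_succ_apply', hAB _ (hBi _ d hdS).1]
    simp
  · show B^[m - m] d = B^[m - 0] d - w
    rw [Nat.sub_self, Nat.sub_zero, hd]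
    simp

/-- uniform closing -/
theorem exists_corr {k : ℕ} {A : V k →L[ℝ] V k} {v : V k} (hv : v ≠ 0) (hA : IdPlusHyp A v) {ε : ℝ}
    (hε : 0 < ε) : ∃ δ > 0, ∀ m : ℕ, 1 ≤ m → ∀ w : V k, ‖w‖ < δ → Corr A v ε m w := by
  obtain ⟨E, Es, Eu, C, μ, hC, hμ0, hμ1, hdec, hE, hEs, hEu⟩ := hA
  -- a bounded decomposition
  obtain ⟨L, hL0, hL⟩ : ∃ L : ℝ, 0 ≤ L ∧ ∀ w : V k, ∃ x ∈ E, ∃ y ∈ Es, ∃ z ∈ Eu, w = x + y + z ∧
      ‖x‖ ≤ L * ‖w‖ ∧ ‖y‖ ≤ L * ‖w‖ ∧ ‖z‖ ≤ L * ‖w‖ := by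
    let f : (E × Es × Eu) →ₗ[ℝ] V k :=
      (E.subtype ∘ₗ LinearMap.fst ℝ _ _) + (Es.subtype ∘ₗ LinearMap.fst ℝ _ _ ∘ₗ LinearMap.snd ℝ _ _) +
        (Eu.subtype ∘ₗ LinearMap.snd ℝ _ _ ∘ₗ LinearMap.snd ℝ _ _)
    have hf : ∀ q, f q = (q.1 : V k) + (q.2.1 : V k) + (q.2.2 : V k) := fun _ => rfl
    have hsurj : Function.Surjective f := by
      intro w
      obtain ⟨x, hx, y, hy, z, hz, h⟩ := hdec w
      exact ⟨(⟨x, hx⟩, ⟨y, hy⟩, ⟨z, hz⟩), by rw [hf, h]⟩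
    obtain ⟨g, hg⟩ := f.exists_rightInverse_of_surjective (LinearMap.range_eq_top.2 hsurj)
    let G := LinearMap.toContinuousLinearMap g
    have hG : ∀ w, f (G w) = w := fun w => LinearMap.congr_fun hg w
    refine ⟨‖G‖, G.opNorm_nonneg, fun w => ⟨(G w).1, (G w).1.2, (G w).2.1, (G w).2.1.2, (G w).2.2,
      (G w).2.2.2, ?_, ?_, ?_, ?_⟩⟩
    · rw [← hf, hG]
    · have h1 := G.le_opNorm w
      exact (norm_fst_le (G w)).trans h1
    · have h1 := G.le_opNorm w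
      exact ((norm_fst_le (G w).2).trans (norm_snd_le (G w))).trans h1
    · have h1 := G.le_opNorm w
      exact ((norm_snd_le (G w).2).trans (norm_snd_le (G w))).trans h1
  have h1 : 0 < 1 - μ := by linarith
  have hv0 : 0 < ‖v‖ := norm_pos_iff.2 hv
  obtain ⟨Q, hQ⟩ : ∃ Q : ℝ, Q = (1 + (‖A‖ + 1) / ‖v‖) * L + C * (C / (1 - μ)) * L +
    C * (C / (1 - μ)) * L := ⟨_, rfl⟩
  have hQ0 : 0 ≤ Q := by rw [hQ]; positivity
  refine ⟨ε / (Q + 1), by positivity, fun m hm w hw => ?_⟩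
  obtain ⟨x, hx, y, hy, z, hz, hw', hxb, hyb, hzb⟩ := hL w
  have c1 := corr_id hv hm (hE x hx)
  have c2 := corr_contr (v := v) hC hμ0 hμ1 hEs hm hy
  have c3 := corr_exp (v := v) hC hμ0 hμ1 hEu hm hz
  have c4 := (c1.add c2).add c3
  rw [← hw'] at c4
  obtain ⟨p, d, e, g1, g2, g3, g4, g5⟩ := c4
  have hB : (1 + (‖A‖ + 1) / ‖v‖) * ‖x‖ + C * (C / (1 - μ)) * ‖y‖ + C * (C / (1 - μ)) * ‖z‖ ≤ ε := by
    have a1 : (1 + (‖A‖ + 1) / ‖v‖) * ‖x‖ ≤ (1 + (‖A‖ + 1) / ‖v‖) * (L * ‖w‖) :=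
      mul_le_mul_of_nonneg_left hxb (by positivity)
    have a2 : C * (C / (1 - μ)) * ‖y‖ ≤ C * (C / (1 - μ)) * (L * ‖w‖) :=
      mul_le_mul_of_nonneg_left hyb (by positivity)
    have a3 : C * (C / (1 - μ)) * ‖z‖ ≤ C * (C / (1 - μ)) * (L * ‖w‖) :=
      mul_le_mul_of_nonneg_left hzb (by positivity)
    have a4 : (1 + (‖A‖ + 1) / ‖v‖) * (L * ‖w‖) + C * (C / (1 - μ)) * (L * ‖w‖) +
        C * (C / (1 - μ)) * (L * ‖w‖) = Q * ‖w‖ := by rw [hQ]; ring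
    have a5 : Q * ‖w‖ ≤ (Q + 1) * ‖w‖ := by nlinarith [norm_nonneg w]
    have a6 : (Q + 1) * ‖w‖ ≤ ε := by
      rw [lt_div_iff₀ (by positivity)] at hw
      nlinarith
    linarith
  exact ⟨p, d, e, g1.trans hB, fun i hi => (g2 i hi).trans hB, fun i hi => (g3 i hi).trans hB, g4, g5⟩

end Pool.Agent.K6.H72.LF
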