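import Mathlib
import Pool.Agent.K6.H72.LF.Lin
import Pool.Agent.W486.SC.AD
import Pool.Agent.TH382.HS.Limit

/-! Closing for diffeomorphisms which map the orbits of an action of `ℝᵏ` to orbits and are affine on
them except in one direction `v`, in which they are monotone. -/

set_option autoImplicit false

open scoped Topology ContDiff Manifold
open Set Metric Filter

noncomputable section

namespace Pool.Agent.K6.H72.LF

open Pool.Agent.H718R2.G Pool.Agent.W564.SC Pool.Agent.K6.H72.FL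

universe u

variable {k n : ℕ} {N : Type u} [TopologicalSpace N] [ChartedSpace (V n) N]

/-- A `C^r` action of `ℝᵏ` on `N`, jointly `C^r` in both variables. -/
structure RAction (k n : ℕ) (N : Type u) [TopologicalSpace N] [ChartedSpace (V n) N] (r : ℕ∞)
    (R : V k → N → N) : Prop where
  smooth : ContMDiff ((𝓡 k).prod (𝓡 n)) (𝓡 n) r (fun q : V k × N => R q.1 q.2)
  zero : ∀ y, R 0 y = y
  add : ∀ a b y, R (a + b) y = R a (R b y)

/-- The set `K` is invariant under `F` and the action `R`; `F` maps the `R`-orbits in `K` to `R`-orbits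
by maps which are affine with linear part `A` except in the direction `v`:
`F (R q x) = R (A q + g x q • v) (F x)`, with `A v = lam v` and real functions `g x q` which tend to `0` as
`q → 0` uniformly in `x ∈ K`; along the lines parallel to `v` the map `F` is continuous and
nondecreasing. -/
structure LineMap (R : V k → N → N) (F : N → N) (K : Set N) (A : V k →L[ℝ] V k) (v : V k) (lam : ℝ)
    (g : N → V k → ℝ) : Prop where
  maps : ∀ x ∈ K, F x ∈ K
  orb : ∀ x ∈ K, ∀ q, R q x ∈ K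
  eig : A v = lam • v
  eq : ∀ x ∈ K, ∀ q, F (R q x) = R (A q + g x q • v) (F x)
  cont : ∀ x ∈ K, Continuous fun s : ℝ => g x (s • v)
  unif : ∀ ε > 0, ∃ δ > 0, ∀ x ∈ K, ∀ q, ‖q‖ < δ → |g x q| ≤ ε
  mono : ∀ x ∈ K, Monotone fun s : ℝ => lam * s + g x (s • v)

/-- the maps of the action -/
def ractD {r : ℕ∞} {R : V k → N → N} (h : RAction k n N r R) (s : V k) : DiffM n N r where
  toFun := R s
  invFun := R (-s)
  left_inv := fun y => by rw [← h.add, neg_add_cancel, h.zero]
  right_inv := fun y => by rw [← h.add, add_neg_cancel, h.zero]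
  contMDiff_toFun := by
    have h1 : ContMDiff (𝓡 n) ((𝓡 k).prod (𝓡 n)) r (fun y : N => (s, y)) :=
      contMDiff_const.prodMk contMDiff_id
    exact h.smooth.comp h1
  contMDiff_invFun := by
    have h1 : ContMDiff (𝓡 n) ((𝓡 k).prod (𝓡 n)) r (fun y : N => (-s, y)) :=
      contMDiff_const.prodMk contMDiff_id
    exact h.smooth.comp h1

/-- the family of the maps `R s ∘ F` -/
def rshift {r : ℕ∞} {R : V k → N → N} (h : RAction k n N r R) (F : DiffM n N r)
    (s : V k) : DiffM n N r :=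
  F.trans (ractD h s)

lemma rshift_apply {r : ℕ∞} {R : V k → N → N} (h : RAction k n N r R) (F : DiffM n N r)
    (s : V k) (y : N) : rshift h F s y = R s (F y) := rfl

lemma rshift_zero {r : ℕ∞} {R : V k → N → N} (h : RAction k n N r R) (F : DiffM n N r) :
    rshift h F 0 = F := by
  ext y
  rw [rshift_apply, h.zero]

lemma rshift_isFam {r : ℕ∞} {R : V k → N → N} (h : RAction k n N r R)
    (F : DiffM n N r) : IsFam n N r (rshift h F) := by
  intro y
  have h1 : ContMDiff ((𝓡 k).prod (𝓡 n)) ((𝓡 k).prod (𝓡 n)) r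
      (fun q : V k × N => (q.1, F q.2)) :=
    contMDiff_fst.prodMk (F.contMDiff_toFun.comp contMDiff_snd)
  exact (h.smooth.comp h1).contMDiffAt

/-- **Closing for line maps.** -/
theorem closable_line [IsManifold (𝓡 n) ∞ N] [T2Space N] [CompactSpace N] (r : ℕ∞) (hr : 1 ≤ r)
    (F : DiffM n N r) {R : V k → N → N} (hR : RAction k n N r R) {K : Set N} {A : V k →L[ℝ] V k}
    {v : V k} {lam : ℝ} {g : N → V k → ℝ} (hv : v ≠ 0) (hA : IdPlusHyp A v)
    (hF : LineMap R F K A v lam g) {z : N}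
    (hz : ∀ W ∈ 𝓝 z, ∀ ε > 0, ∃ x ∈ W, x ∈ K ∧ ∃ m : ℕ, 1 ≤ m ∧ ∃ b : V k, ‖b‖ < ε ∧
      F^[m] x = R b x) :
    Closable n N r F z := by
  have h1 := closable_of_periodic (n := n) (N := N) r hr (rshift_isFam hR F) (z := z) (by
    intro η hη W hW
    have hv0 : 0 < ‖v‖ := norm_pos_iff.2 hv
    obtain ⟨η', hη', hη1⟩ : ∃ η' : ℝ, 0 < η' ∧ η' * ‖v‖ + η' < η := by
      refine ⟨η / (2 * (‖v‖ + 1)), by positivity, ?_⟩
      have h1 : η / (2 * (‖v‖ + 1)) * ‖v‖ + η / (2 * (‖v‖ + 1)) = η / 2 := by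
        field_simp
      rw [h1]
      linarith
    obtain ⟨δ₁, hδ₁, W', hW', hWW⟩ : ∃ δ₁ > 0, ∃ W' ∈ 𝓝 z, ∀ x ∈ W', ∀ d : V k, ‖d‖ < δ₁ →
        R d x ∈ W := by
      have h2 : Continuous (fun q : V k × N => R q.1 q.2) := hR.smooth.continuous
      have h3 : ∀ᶠ q : V k × N in 𝓝 ((0 : V k), z), R q.1 q.2 ∈ W := by
        refine (h2.tendsto ((0 : V k), z)).eventually ?_
        show ∀ᶠ y in 𝓝 (R 0 z), y ∈ W
        rw [hR.zero]
        exact hW
      rw [nhds_prod_eq, Filter.eventually_prod_iff] at h3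
      obtain ⟨pa, hpa, pb, hpb, h4⟩ := h3
      obtain ⟨δ, hδ, h5⟩ := Metric.eventually_nhds_iff.1 hpa
      refine ⟨δ, hδ, {x | pb x}, hpb, fun x hx d hd => h4 (h5 ?_) hx⟩
      rw [dist_zero_right]
      exact hd
    obtain ⟨δ₂, hδ₂, hg⟩ := hF.unif (η' / 2) (by positivity)
    have hg0 : ∀ x ∈ K, g x 0 = 0 := by
      intro x hx
      by_contra hne
      have hpos : 0 < |g x 0| := abs_pos.2 hne
      obtain ⟨δ, hδ, h2⟩ := hF.unif (|g x 0| / 2) (by positivity)
      have h3 := h2 x hx 0 (by rw [norm_zero]; exact hδ)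
      linarith
    obtain ⟨ε₀, hε₀, he1, he2, he3⟩ : ∃ ε₀ : ℝ, 0 < ε₀ ∧ ε₀ < δ₁ ∧ ε₀ < δ₂ ∧ ε₀ ≤ η' / 2 := by
      refine ⟨min (min (δ₁ / 2) (δ₂ / 2)) (η' / 2), by positivity, ?_, ?_, min_le_right _ _⟩
      · exact ((min_le_left _ _).trans (min_le_left _ _)).trans_lt (by linarith)
      · exact ((min_le_left _ _).trans (min_le_right _ _)).trans_lt (by linarith)
    obtain ⟨δ₃, hδ₃, hcorr⟩ := exists_corr hv hA hε₀
    obtain ⟨x, hxW, hxK, m, hm, b, hb, hmb⟩ := hz W' hW' δ₃ hδ₃
    obtain ⟨p, d, e, hp, hd, he, hrec, hend⟩ := hcorr m hm b hb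
    have hxi : ∀ i, F^[i] x ∈ K := by
      intro i
      induction i with
      | zero => exact hxK
      | succ i ih => rw [Function.iterate_succ_apply']; exact hF.maps _ ih
    -- the perturbed map
    have hφ0 : ∀ y, R ((0 : ℝ) • v) y = y := by intro y; rw [zero_smul, hR.zero]
    have hφadd : ∀ (s t : ℝ) y, R ((s + t) • v) y = R (s • v) (R (t • v) y) := by
      intro s t y; rw [add_smul, hR.add]
    have hcomm : ∀ a c y, R a (R c y) = R c (R a y) := by
      intro a c y; rw [← hR.add, ← hR.add, add_comm]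
    have hstep : ∀ i < m, R p (F (R (d i) (F^[i] x))) =
        R (d (i + 1) + (g (F^[i] x) (d i) - e i) • v) (F^[i + 1] x) := by
      intro i hi
      rw [hF.eq _ (hxi i), ← hR.add, Function.iterate_succ_apply']
      congr 1
      rw [hrec i hi, sub_smul]
      abel
    obtain ⟨t, ht, hper⟩ := close_loop (φ := fun (s : ℝ) (y : N) => R (s • v) y) hφ0 hφadd
      (F := fun y => R p (F y)) (m := m) (y := fun i => R (d i) (F^[i] x))
      (e := fun i => e i - g (F^[i] x) (d i)) (η := η') hη'.le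
      (by
        intro i hi
        have hyK : R (d i) (F^[i] x) ∈ K := hF.orb _ (hxi i) _
        refine ⟨fun s => lam * s + g (R (d i) (F^[i] x)) (s • v),
          (continuous_const.mul continuous_id).add (hF.cont _ hyK), hF.mono _ hyK, ?_, ?_⟩
        · show lam * 0 + g (R (d i) (F^[i] x)) ((0 : ℝ) • v) = 0
          rw [zero_smul, hg0 _ hyK, mul_zero, add_zero]
        · intro s
          show R p (F (R (s • v) (R (d i) (F^[i] x)))) =
            R ((lam * s + g (R (d i) (F^[i] x)) (s • v)) • v) (R p (F (R (d i) (F^[i] x))))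
          rw [hF.eq _ hyK, hcomm, map_smul, hF.eig, smul_smul, ← add_smul, mul_comm s lam])
      (by
        intro i hi
        show |e i - g (F^[i] x) (d i)| ≤ η'
        have h2 := he i hi
        have h3 := hg _ (hxi i) (d i) ((hd i hi.le).trans_lt he2)
        have h4 := abs_sub (e i) (g (F^[i] x) (d i))
        linarith)
      (by
        intro i hi
        show R (d (i + 1)) (F^[i + 1] x) = R ((e i - g (F^[i] x) (d i)) • v) (R p (F (R (d i) (F^[i] x))))
        rw [hstep i hi, ← hR.add]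
        congr 1
        rw [sub_smul, sub_smul]
        abel)
      (by
        show R (d m) (F^[m] x) = R (d 0) (F^[0] x)
        rw [hmb, hend, ← hR.add, sub_add_cancel]
        rfl)
    refine ⟨t • v + p, ?_, R (d 0) x, hWW x hxW _ ((hd 0 (Nat.zero_le _)).trans_lt he1), m, hm, ?_⟩
    · have h2 : ‖t • v + p‖ ≤ |t| * ‖v‖ + ‖p‖ := by
        refine (norm_add_le _ _).trans ?_
        rw [norm_smul, Real.norm_eq_abs]
      have h3 : |t| * ‖v‖ ≤ η' * ‖v‖ := mul_le_mul_of_nonneg_right ht hv0.le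
      linarith
    · have h2 : (⇑(rshift hR F (t • v + p)) : N → N) = fun x => R (t • v) (R p (F x)) := by
        funext y
        rw [rshift_apply, hR.add]
      rw [h2]
      exact hper)
  rwa [rshift_zero] at h1

/-- The case that the displacement in the direction `v` is the coboundary of a continuous function. -/
theorem lineMap_of_fun [CompactSpace N] {r : ℕ∞} {F : DiffM n N r} {R : V k → N → N}
    (hR : RAction k n N r R) {K : Set N} {A : V k →L[ℝ] V k} {v : V k} {lam : ℝ} (hlam : 0 < lam)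
    (hAv : A v = lam • v) (hmaps : ∀ x ∈ K, F x ∈ K) (horb : ∀ x ∈ K, ∀ q, R q x ∈ K)
    {u : N → ℝ} (hu : Continuous u)
    (hF : ∀ x ∈ K, ∀ q, F (R q x) = R (A q + (u (R q x) - u x) • v) (F x)) :
    LineMap R F K A v lam (fun x q => u (R q x) - u x) := by
  have hRc : Continuous (fun q : V k × N => R q.1 q.2) := hR.smooth.continuous
  have hline : ∀ x, Continuous fun s : ℝ => u (R (s • v) x) - u x := by
    intro x
    have h1 : Continuous fun s : ℝ => ((s • v, x) : V k × N) :=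
      (continuous_id.smul continuous_const).prodMk continuous_const
    exact (hu.comp (hRc.comp h1)).sub continuous_const
  refine ⟨hmaps, horb, hAv, hF, fun x _ => hline x, ?_, ?_⟩
  · intro ε hε
    have h1 : Continuous fun q : V k × N => |u (R q.1 q.2) - u q.2| :=
      ((hu.comp hRc).sub (hu.comp continuous_snd)).abs
    have h2 : ∀ᶠ q in 𝓝 (0 : V k), ∀ x ∈ (univ : Set N), |u (R q x) - u x| < ε := by
      refine isCompact_univ.eventually_forall_of_forall_eventually fun x _ => ?_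
      refine (h1.tendsto (0, x)).eventually_lt_const ?_
      show |u (R 0 x) - u x| < ε
      rw [hR.zero, sub_self, abs_zero]
      exact hε
    obtain ⟨δ, hδ, h3⟩ := Metric.eventually_nhds_iff.1 h2
    exact ⟨δ, hδ, fun x _ q hq => (h3 (by rw [dist_zero_right]; exact hq) x (mem_univ _)).le⟩
  · intro x hx
    -- injectivity along the lines
    have hinj : Function.Injective fun s : ℝ => lam * s + (u (R (s • v) x) - u x) := by
      intro s t hst
      have h1 : F (R (s • v) x) = F (R (t • v) x) := by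
        rw [hF x hx, hF x hx, map_smul, map_smul, hAv, smul_smul, smul_smul, ← add_smul,
          ← add_smul, mul_comm s, mul_comm t]
        have h2 : lam * s + (u (R (s • v) x) - u x) = lam * t + (u (R (t • v) x) - u x) := hst
        rw [h2]
      have h2 : R (s • v) x = R (t • v) x := F.injective h1
      have h3 : lam * s + (u (R (s • v) x) - u x) = lam * t + (u (R (t • v) x) - u x) := hst
      rw [h2] at h3
      have h4 : lam * s = lam * t := by linarith
      exact mul_left_cancel₀ hlam.ne' h4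
    have hcont : Continuous fun s : ℝ => lam * s + (u (R (s • v) x) - u x) :=
      (continuous_const.mul continuous_id).add (hline x)
    rcases hcont.strictMono_of_inj hinj with h | h
    · exact h.monotone
    · exfalso
      obtain ⟨C, hC⟩ : ∃ C, ∀ y, |u y| ≤ C := by
        obtain ⟨C, hC⟩ := isCompact_univ.exists_bound_of_continuousOn hu.continuousOn
        exact ⟨C, fun y => hC y (mem_univ _)⟩
      obtain ⟨s, hs⟩ := exists_gt (max 0 (4 * C / lam))
      have hs0 : 0 < s := (le_max_left _ _).trans_lt hs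
      have hs1 : 4 * C / lam < s := (le_max_right _ _).trans_lt hs
      have h2 := h hs0
      simp only [zero_smul, hR.zero, sub_self, mul_zero, add_zero] at h2
      rw [div_lt_iff₀ hlam] at hs1
      have h3 := abs_le.1 (hC (R (s • v) x))
      have h4 := abs_le.1 (hC x)
      have h5 : 0 ≤ C := (abs_nonneg _).trans (hC x)
      nlinarith

/-- free smooth torus actions -/
lemma _root_.Pool.Agent.W564.SC.FreeTorus.rAction {R : V k → N → N} (hR : FreeTorus k n N R) (r : ℕ∞) :
    RAction k n N r R :=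
  ⟨hR.smooth.of_le (by exact_mod_cast le_top), hR.zero, hR.add⟩

/-- Near any point, the displacement along the orbits of a free action is small modulo the
integers. -/
lemma small_displacement [IsManifold (𝓡 n) ∞ N] [T2Space N] [CompactSpace N] {R : V k → N → N}
    (hR : FreeTorus k n N R) (z : N) {ε : ℝ} (hε : 0 < ε) :
    ∃ W ∈ 𝓝 z, ∀ x ∈ W, ∀ b, R b x ∈ W → ∃ b', ‖b'‖ < ε ∧ R b x = R b' x := by
  obtain ⟨D, χ, e, c, hD, hχ, hc, h1, h2⟩ := Pool.Agent.W486.SC.ad k n N R hR z
  obtain ⟨ρ, hρ, hρc, hρε⟩ : ∃ ρ : ℝ, 0 < ρ ∧ ρ ≤ c ∧ 2 * ρ < ε :=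
    ⟨min c (ε / 4), by positivity, min_le_left _ _, by
      have := min_le_right c (ε / 4)
      linarith⟩
  have hnhds : {y : N | y ∈ χ.source ∧ ‖e (χ y)‖ < ρ} ∈ 𝓝 z := by
    have h5 : χ.source ∈ 𝓝 z := χ.open_source.mem_nhds hχ.src
    have h6 : ContinuousAt (fun y => ‖e (χ y)‖) z :=
      (e.continuous.continuousAt.comp (χ.continuousAt hχ.src)).norm
    have h7 : ∀ᶠ y in 𝓝 z, ‖e (χ y)‖ < ρ := by
      have h8 : ‖e (χ z)‖ < ρ := by rw [hχ.zero, map_zero, norm_zero]; exact hρ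
      exact h6.eventually_lt_const h8
    filter_upwards [h5, h7] with y hy1 hy2
    exact ⟨hy1, hy2⟩
  refine ⟨_, hnhds, fun x hx b hb => ?_⟩
  obtain ⟨l, hl, heq⟩ := h2 x hx.1 b hb.1 (hx.2.le.trans hρc) (hb.2.le.trans hρc)
  refine ⟨b - l, ?_, ?_⟩
  · have h3 : ((b - l, 0) : V k × V D) = e (χ (R b x)) - e (χ x) := by rw [heq]; abel
    have h4 : ‖((b - l, 0) : V k × V D)‖ ≤ ‖e (χ (R b x))‖ + ‖e (χ x)‖ := by
      rw [h3]; exact norm_sub_le _ _
    have h5 : ‖b - l‖ ≤ ‖((b - l, 0) : V k × V D)‖ := by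
      rw [Prod.norm_def]; exact le_max_left _ _
    have h6 := hx.2
    have h7 := hb.2
    linarith
  · have h3 : R l x = x := (hR.free l x).2 hl
    calc R b x = R (b - l + l) x := by rw [sub_add_cancel]
      _ = R (b - l) x := by rw [hR.add, h3]

/-- `y` lies in the closure of a set `K` as in `LineMap`, for some `C^r` action `R` of some `ℝᵏ`, and
arbitrarily close to `y` there are points of `K` which return along their `R`-orbits with arbitrarily
small displacement. -/
def IsLinePt (n : ℕ) (N : Type u) [TopologicalSpace N] [ChartedSpace (V n) N] (r : ℕ∞) (F : N → N)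
    (y : N) : Prop :=
  ∃ (k : ℕ) (R : V k → N → N) (K : Set N) (A : V k →L[ℝ] V k) (v : V k) (lam : ℝ)
    (g : N → V k → ℝ), RAction k n N r R ∧ v ≠ 0 ∧ IdPlusHyp A v ∧ LineMap R F K A v lam g ∧
    ∀ W ∈ 𝓝 y, ∀ ε > 0, ∃ x ∈ W, x ∈ K ∧ ∃ m : ℕ, 1 ≤ m ∧ ∃ b : V k, ‖b‖ < ε ∧ F^[m] x = R b x

theorem main_line [IsManifold (𝓡 n) ∞ N] [T2Space N] [CompactSpace N] (r : ℕ∞) (hr : 1 ≤ r)
    (F : DiffM n N r) (z : N)
    (h : ∀ U : Set (DiffM n N r), IsOpen[strongTop n N r] U → F ∈ U →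
      ∃ F' ∈ U, z ∈ closure {y | IsLinePt n N r F' y}) :
    Closable n N r F z := by
  refine Pool.Agent.TH382.HS.closable_of_limit F z fun U hU hFU => ?_
  obtain ⟨F', hF', hz⟩ := h U hU hFU
  refine ⟨F', hF', closure_mono (fun y hy => ?_) hz⟩
  obtain ⟨k, R, K, A, v, lam, g, hR, hv, hA, hg, hrec⟩ := hy
  exact closable_line r hr F' hR hv hA hg hrec

/-- **Torus actions.** -/
theorem closable_torus [IsManifold (𝓡 n) ∞ N] [T2Space N] [CompactSpace N] (r : ℕ∞) (hr : 1 ≤ r)
    (F : DiffM n N r) {R : V k → N → N} (hR : FreeTorus k n N R) {K : Set N} {A : V k →L[ℝ] V k}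
    {v : V k} {lam : ℝ} (hv : v ≠ 0) (hlam : 0 < lam) (hAv : A v = lam • v) (hA : IdPlusHyp A v)
    (hmaps : ∀ x ∈ K, F x ∈ K) (horb : ∀ x ∈ K, ∀ q, R q x ∈ K)
    {u : N → ℝ} (hu : Continuous u)
    (hF : ∀ x ∈ K, ∀ q, F (R q x) = R (A q + (u (R q x) - u x) • v) (F x)) {z : N}
    (hz : ∀ W ∈ 𝓝 z, ∃ x ∈ W, x ∈ K ∧ ∃ m : ℕ, 1 ≤ m ∧ F^[m] x ∈ W ∧ ∃ b, F^[m] x = R b x) :
    Closable n N r F z := by
  refine closable_line r hr F (hR.rAction r) hv hA
    (lineMap_of_fun (hR.rAction r) hlam hAv hmaps horb hu hF) ?_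
  intro W hW ε hε
  obtain ⟨W', hW', h1⟩ := small_displacement hR z hε
  obtain ⟨x, hx, hxK, m, hm, hmW, b, hb⟩ := hz (W ∩ W') (inter_mem hW hW')
  obtain ⟨b', hb', h2⟩ := h1 x hx.2 b (by rw [← hb]; exact hmW.2)
  exact ⟨x, hx.1, hxK, m, hm, b', hb', by rw [hb, h2]⟩

/-- If the torus has the same dimension as the manifold, points close to each other are on the same
orbit. -/
lemma same_orbit [IsManifold (𝓡 n) ∞ N] [T2Space N] [CompactSpace N] {R : V n → N → N}
    (hR : FreeTorus n n N R) (z : N) : ∃ W ∈ 𝓝 z, ∀ x ∈ W, ∀ y ∈ W, ∃ b, y = R b x := by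
  obtain ⟨D, χ, e, c, hD, hχ, hc, h1, h2⟩ := Pool.Agent.W486.SC.ad n n N R hR z
  have hD0 : D = 0 := by omega
  subst hD0
  have hnhds : {y : N | y ∈ χ.source ∧ ‖e (χ y)‖ < c} ∈ 𝓝 z := by
    have h5 : χ.source ∈ 𝓝 z := χ.open_source.mem_nhds hχ.src
    have h6 : ContinuousAt (fun y => ‖e (χ y)‖) z :=
      (e.continuous.continuousAt.comp (χ.continuousAt hχ.src)).norm
    have h7 : ∀ᶠ y in 𝓝 z, ‖e (χ y)‖ < c := by
      have h8 : ‖e (χ z)‖ < c := by rw [hχ.zero, map_zero, norm_zero]; exact hc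
      exact h6.eventually_lt_const h8
    filter_upwards [h5, h7] with y hy1 hy2
    exact ⟨hy1, hy2⟩
  have key : ∀ y, y ∈ χ.source → ‖e (χ y)‖ < c → y = R (e (χ y)).1 z := by
    intro y hy hyc
    have h3 : ‖(e (χ y)).1‖ ≤ c := (norm_fst_le _).trans hyc.le
    obtain ⟨h4, h5⟩ := h1 z hχ.src (e (χ y)).1 (by rw [hχ.zero, map_zero, norm_zero]; exact hc.le) h3
    rw [hχ.zero, map_zero, zero_add] at h5
    have h6 : e (χ (R (e (χ y)).1 z)) = e (χ y) := by
      rw [h5]
      refine Prod.ext rfl ?_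
      exact Subsingleton.elim _ _
    exact (χ.injOn h4 hy (e.injective h6)).symm
  refine ⟨_, hnhds, fun x hx y hy => ⟨(e (χ y)).1 - (e (χ x)).1, ?_⟩⟩
  calc y = R (e (χ y)).1 z := key y hy.1 hy.2
    _ = R ((e (χ y)).1 - (e (χ x)).1 + (e (χ x)).1) z := by rw [sub_add_cancel]
    _ = R ((e (χ y)).1 - (e (χ x)).1) x := by rw [hR.add, ← key x hx.1 hx.2]

/-- **Diffeomorphisms of the torus `𝕋ⁿ`** -/
theorem closable_linear [IsManifold (𝓡 n) ∞ N] [T2Space N] [CompactSpace N] (r : ℕ∞) (hr : 1 ≤ r)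
    (F : DiffM n N r) {R : V n → N → N} (hR : FreeTorus n n N R) {A : V n →L[ℝ] V n}
    {v : V n} {lam : ℝ} (hv : v ≠ 0) (hlam : 0 < lam) (hAv : A v = lam • v) (hA : IdPlusHyp A v)
    {u : N → ℝ} (hu : Continuous u)
    (hF : ∀ x q, F (R q x) = R (A q + (u (R q x) - u x) • v) (F x)) {z : N}
    (hz : NonWand F z) : Closable n N r F z := by
  refine closable_torus r hr F hR (K := univ) hv hlam hAv hA (fun _ _ => trivial)
    (fun _ _ _ => trivial) hu (fun x _ q => hF x q) ?_
  intro W hW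
  obtain ⟨W', hW', h1⟩ := same_orbit hR z
  obtain ⟨m, hm, x, hx, hmx⟩ := hz (W ∩ W') (inter_mem hW hW')
  exact ⟨x, hx.1, trivial, m, hm, hmx.1, h1 x hx.2 _ hmx.2⟩

end Pool.Agent.K6.H72.LF
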