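import Mathlib
import Pool.Agent.K6.H72.LF.Main

/-! Diffeomorphisms of the torus which preserve a linear foliation by dense lines. -/

set_option autoImplicit false

open scoped Topology ContDiff Manifold
open Set Metric Filter

noncomputable section

namespace Pool.Agent.K6.H72.LF

open Pool.Agent.H718R2.G Pool.Agent.W564.SC Pool.Agent.K6.H72.FL

universe u

/-- the vectors with integral coordinates -/
def Intg {n : ℕ} (q : V n) : Prop := ∀ j, ∃ m : ℤ, q j = m

/-- the lattice `ℤⁿ` -/
def Lat (n : ℕ) : AddSubgroup (V n) where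
  carrier := {q | Intg q}
  add_mem' := fun {a b} ha hb j => by
    obtain ⟨p, hp⟩ := ha j
    obtain ⟨q, hq⟩ := hb j
    exact ⟨p + q, by push_cast; rw [← hp, ← hq]; rfl⟩
  zero_mem' := fun j => ⟨0, by simp⟩
  neg_mem' := fun {a} ha j => by
    obtain ⟨p, hp⟩ := ha j
    exact ⟨-p, by push_cast; rw [← hp]; rfl⟩

lemma mem_lat {n : ℕ} {q : V n} : q ∈ Lat n ↔ Intg q := Iff.rfl

lemma lat_countable (n : ℕ) : (Lat n : Set (V n)).Countable := by
  have h1 : (Lat n : Set (V n)) ⊆ range fun m : Fin n → ℤ => (WithLp.toLp 2 fun j => (m j : ℝ) : V n) := by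
    intro q hq
    choose m hm using (mem_lat.1 hq)
    exact ⟨m, by ext j; exact (hm j).symm⟩
  exact (countable_range _).mono h1

lemma lat_norm {n : ℕ} {q : V n} (hq : Intg q) (h : ‖q‖ < 1) : q = 0 := by
  ext j
  obtain ⟨m, hm⟩ := hq j
  have h1 : |q j| < 1 := (abs_coord_le' q j).trans_lt h
  rw [hm] at h1 ⊢
  have h2 : ((|m| : ℤ) : ℝ) < ((1 : ℤ) : ℝ) := by
    rw [Int.cast_abs, Int.cast_one]
    exact h1
  have h3 : m = 0 := Int.abs_lt_one_iff.1 (Int.cast_lt.1 h2)
  simp [h3]
where
  abs_coord_le' {n : ℕ} (s : V n) (j : Fin n) : |s j| ≤ ‖s‖ := by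
    have h1 := EuclideanSpace.norm_eq s
    have h2 : ‖s j‖ ^ 2 ≤ ∑ i, ‖s i‖ ^ 2 :=
      Finset.single_le_sum (f := fun i => ‖s i‖ ^ 2) (fun i _ => by positivity) (Finset.mem_univ j)
    rw [h1, ← Real.norm_eq_abs]
    exact Real.le_sqrt_of_sq_le h2

lemma const_of_countable {X Y : Type*} [TopologicalSpace X] [MetricSpace Y] {s : Set X}
    (hs : IsPreconnected s) {f : X → Y} (hf : ContinuousOn f s) {S : Set Y} (hS : S.Countable)
    (h : ∀ x ∈ s, f x ∈ S) {x y : X} (hx : x ∈ s) (hy : y ∈ s) : f x = f y := by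
  have h1 : IsPreconnected (f '' s) := hs.image f hf
  have h2 : f '' s ⊆ S := by
    rintro _ ⟨x, hx, rfl⟩
    exact h x hx
  have h3 := hS.isTotallyDisconnected (f '' s) h2 h1
  exact h3 ⟨x, hx, rfl⟩ ⟨y, hy, rfl⟩

variable {n : ℕ} {N : Type u} [TopologicalSpace N] [ChartedSpace (V n) N] [IsManifold (𝓡 n) ∞ N]
  [T2Space N] [CompactSpace N]

lemma near_orbit {R : V n → N → N} (hR : FreeTorus n n N R) (z : N) {δ : ℝ} (hδ : 0 < δ) :
    ∃ W ∈ 𝓝 z, ∀ y ∈ W, ∃ b, ‖b‖ < δ ∧ y = R b z := by
  obtain ⟨W₁, hW₁, h1⟩ := small_displacement hR z hδ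
  obtain ⟨W₂, hW₂, h2⟩ := same_orbit hR z
  refine ⟨W₁ ∩ W₂, inter_mem hW₁ hW₂, fun y hy => ?_⟩
  obtain ⟨b, hb⟩ := h2 z (mem_of_mem_nhds hW₂) y hy.2
  obtain ⟨b', hb', h3⟩ := h1 z (mem_of_mem_nhds hW₁) b (by rw [← hb]; exact hy.1)
  exact ⟨b', hb', by rw [hb, h3]⟩

/-- the action is transitive -/
lemma orbit_univ [ConnectedSpace N] {R : V n → N → N} (hR : FreeTorus n n N R) (x y : N) :
    ∃ q, y = R q x := by
  have hopen : IsOpen {y | ∃ q, y = R q x} := by
    rw [isOpen_iff_mem_nhds]
    rintro y ⟨q, rfl⟩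
    obtain ⟨W, hW, h1⟩ := near_orbit hR (R q x) one_pos
    filter_upwards [hW] with w hw
    obtain ⟨b, _, hb⟩ := h1 w hw
    exact ⟨b + q, by rw [hb, hR.add]⟩
  have hclosed : IsClosed {y | ∃ q, y = R q x} := by
    rw [← isOpen_compl_iff, isOpen_iff_mem_nhds]
    intro y hy
    obtain ⟨W, hW, h1⟩ := near_orbit hR y one_pos
    filter_upwards [hW] with w hw hq
    obtain ⟨q, hq⟩ := hq
    obtain ⟨b, _, hb⟩ := h1 w hw
    refine hy ⟨-b + q, ?_⟩
    rw [hR.add, ← hq, hb, ← hR.add, neg_add_cancel, hR.zero]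
  have h1 : {y | ∃ q, y = R q x} = univ :=
    IsClopen.eq_univ ⟨hclosed, hopen⟩ ⟨x, 0, (hR.zero x).symm⟩
  have h2 : y ∈ {y | ∃ q, y = R q x} := by rw [h1]; trivial
  exact h2

lemma fiber_iff {R : V n → N → N} (hR : FreeTorus n n N R) {x : N} {a b : V n} :
    R a x = R b x ↔ Intg (a - b) := by
  rw [show Intg (a - b) ↔ R (a - b) x = x from (hR.free _ _).symm]
  constructor
  · intro h
    rw [sub_eq_add_neg, add_comm, hR.add, h, ← hR.add, neg_add_cancel, hR.zero]
  · intro h
    calc R a x = R (b + (a - b)) x := by rw [add_sub_cancel]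
      _ = R b x := by rw [hR.add, h]

lemma quot_map [ConnectedSpace N] {R : V n → N → N} (hR : FreeTorus n n N R) (x : N) :
    IsOpenMap (fun q => R q x) ∧ Topology.IsQuotientMap (fun q => R q x) := by
  have hc : Continuous (fun q : V n => R q x) :=
    hR.smooth.continuous.comp (continuous_id.prodMk continuous_const)
  have ho : IsOpenMap (fun q => R q x) := by
    rw [isOpenMap_iff_nhds_le]
    intro q S hS
    obtain ⟨δ, hδ, h1⟩ := Metric.mem_nhds_iff.1 (Filter.mem_map.1 hS)
    obtain ⟨W, hW, h2⟩ := near_orbit hR (R q x) hδ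
    filter_upwards [hW] with y hy
    obtain ⟨b, hb, hy2⟩ := h2 y hy
    have h3 : b + q ∈ Metric.ball q δ := by
      rw [Metric.mem_ball, dist_eq_norm, add_sub_cancel_right]
      exact hb
    have h4 := h1 h3
    rw [hy2, ← hR.add]
    exact h4
  exact ⟨ho, ho.isQuotientMap hc fun y => by
    obtain ⟨q, hq⟩ := orbit_univ hR x y
    exact ⟨q, hq.symm⟩⟩

lemma lat_discrete (n : ℕ) : IsDiscrete (Lat n : Set (V n)) := by
  constructor
  refine discreteTopology_of_isOpen_singleton_zero ?_
  rw [isOpen_induced_iff]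
  refine ⟨Metric.ball 0 1, Metric.isOpen_ball, ?_⟩
  ext q
  simp only [mem_preimage, mem_singleton_iff, mem_ball_zero_iff]
  constructor
  · intro h
    exact Subtype.ext (lat_norm q.2 h)
  · intro h
    rw [h]
    simp

lemma covering [ConnectedSpace N] {R : V n → N → N} (hR : FreeTorus n n N R) (x : N) :
    IsCoveringMap (fun q => R q x) := by
  have h1 := (quot_map hR x).2.isAddQuotientCoveringMap_of_addSubgroup (Lat n) (lat_discrete n)
    (fun {a b} => by
      show R a x = R b x ↔ Intg (b + -a)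
      rw [← sub_eq_add_neg, eq_comm]
      exact fiber_iff hR)
  exact IsAddQuotientCoveringMap.isCoveringMap _ _ h1

/-- lifts -/
lemma exists_lift [ConnectedSpace N] {R : V n → N → N} (hR : FreeTorus n n N R) (x : N) {F : N → N}
    (hF : Continuous F) : ∃ L : V n → V n, Continuous L ∧ ∀ q, F (R q x) = R (L q) x := by
  have hc : Continuous (fun q : V n => R q x) :=
    hR.smooth.continuous.comp (continuous_id.prodMk continuous_const)
  obtain ⟨e₀, he₀⟩ := orbit_univ hR x (F (R 0 x))
  obtain ⟨L, ⟨_, hL⟩, _⟩ := (covering hR x).existsUnique_continuousMap_lifts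
    ⟨fun q => F (R q x), hF.comp hc⟩ 0 e₀ he₀.symm
  exact ⟨L, L.continuous, fun q => (congrFun hL q).symm⟩

/-- linear part of a lift -/
lemma lift_linear [ConnectedSpace N] {R : V n → N → N} (hR : FreeTorus n n N R) (x : N) {F : N → N}
    {L : V n → V n} (hL : Continuous L) (h : ∀ q, F (R q x) = R (L q) x) :
    ∃ A : V n →L[ℝ] V n, (∀ l, Intg l → Intg (A l)) ∧ ∀ q l, Intg l → L (q + l) = L q + A l := by
  have hint : ∀ q l, Intg l → Intg (L (q + l) - L q) := by
    intro q l hl
    rw [← fiber_iff hR (x := x), ← h, ← h, hR.add, (hR.free l x).2 hl]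
  have hconst : ∀ l, Intg l → ∀ q, L (q + l) - L q = L l - L 0 := by
    intro l hl q
    have h1 : ContinuousOn (fun q => L (q + l) - L q) univ :=
      ((hL.comp (continuous_id.add continuous_const)).sub hL).continuousOn
    have h2 := const_of_countable isPreconnected_univ h1 (lat_countable n)
      (fun q _ => mem_lat.2 (hint q l hl)) (mem_univ q) (mem_univ 0)
    simpa using h2
  let a : (Fin n → ℤ) →+ V n :=
    { toFun := fun m => L (WithLp.toLp 2 fun j => (m j : ℝ)) - L 0
      map_zero' := by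
        have : (WithLp.toLp 2 fun j => (((0 : Fin n → ℤ) j : ℤ) : ℝ) : V n) = 0 := by
          ext j; simp
        rw [this, sub_self]
      map_add' := by
        intro m m'
        have h1 : (WithLp.toLp 2 fun j => (((m + m') j : ℤ) : ℝ) : V n) =
            (WithLp.toLp 2 fun j => (m j : ℝ)) + (WithLp.toLp 2 fun j => (m' j : ℝ)) := by
          ext j; simp
        have h2 := hconst (WithLp.toLp 2 fun j => (m' j : ℝ)) (fun j => ⟨m' j, rfl⟩)
          (WithLp.toLp 2 fun j => (m j : ℝ))
        rw [h1, ← h2]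
        abel }
  let A' : V n →ₗ[ℝ] V n :=
    { toFun := fun q => ∑ j, q j • a (Pi.single j 1)
      map_add' := by
        intro p q
        rw [← Finset.sum_add_distrib]
        exact Finset.sum_congr rfl fun j _ => by
          rw [← add_smul]; rfl
      map_smul' := by
        intro t q
        rw [RingHom.id_apply, Finset.smul_sum]
        exact Finset.sum_congr rfl fun j _ => by
          rw [← mul_smul]; rfl }
  have hA : ∀ l, Intg l → A' l = L l - L 0 := by
    intro l hl
    choose m hm using hl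
    have h1 : l = WithLp.toLp 2 fun j => (m j : ℝ) := by ext j; exact hm j
    have h2 : a m = ∑ j, (m j : ℝ) • a (Pi.single j 1) := by
      have h3 : m = ∑ j, m j • (Pi.single j 1 : Fin n → ℤ) := by
        ext i
        simp [Finset.sum_apply, Pi.single_apply]
      conv_lhs => rw [h3]
      rw [map_sum]
      refine Finset.sum_congr rfl fun j _ => ?_
      rw [map_zsmul, ← Int.cast_smul_eq_zsmul ℝ]
    show ∑ j, l j • a (Pi.single j 1) = _
    have h4 : a m = L l - L 0 := by rw [h1]; rfl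
    rw [← h4, h2]
    exact Finset.sum_congr rfl fun j _ => by rw [hm j]
  refine ⟨LinearMap.toContinuousLinearMap A', fun l hl => ?_, fun q l hl => ?_⟩
  · show Intg (A' l)
    rw [hA l hl]
    have := hint 0 l hl
    rwa [zero_add] at this
  · show L (q + l) = L q + A' l
    rw [hA l hl, ← hconst l hl q]
    abel

/-- Every linear map which vanishes on the lattice is zero. -/
lemma eq_of_lat {A B : V n →L[ℝ] V n} (h : ∀ l, Intg l → A l = B l) : A = B := by
  refine ContinuousLinearMap.ext fun q => ?_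
  have h1 : q = ∑ j, q j • (EuclideanSpace.single j (1 : ℝ) : V n) := by
    ext i
    simp [Pi.single_apply]
  rw [h1, map_sum, map_sum]
  refine Finset.sum_congr rfl fun j _ => ?_
  rw [map_smul, map_smul, h]
  intro i
  by_cases hij : i = j
  · exact ⟨1, by simp [hij]⟩
  · exact ⟨0, by simp [hij]⟩

/-- Every homeomorphism `F` of the torus is affine up to a bounded displacement. -/
theorem exists_linear_part [ConnectedSpace N] {r : ℕ∞} (F : DiffM n N r) {R : V n → N → N}
    (hR : FreeTorus n n N R) : ∃ (A A' : V n →L[ℝ] V n) (c : N → V n), Continuous c ∧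
      (∀ l, Intg l → Intg (A l)) ∧ (∀ l, Intg l → Intg (A' l)) ∧ (∀ q, A' (A q) = q) ∧
      ∀ x q, F (R q x) = R (A q + (c (R q x) - c x)) (F x) := by
  obtain ⟨x₀⟩ : Nonempty N := inferInstance
  have hFc : Continuous (F : N → N) := F.contMDiff_toFun.continuous
  have hFc' : Continuous (F.symm : N → N) := F.symm.contMDiff_toFun.continuous
  obtain ⟨L, hLc, hL⟩ := exists_lift hR x₀ hFc
  obtain ⟨L', hLc', hL'⟩ := exists_lift hR x₀ hFc'
  obtain ⟨A, hA1, hA2⟩ := lift_linear hR x₀ hLc hL
  obtain ⟨A', hA1', hA2'⟩ := lift_linear hR x₀ hLc' hL'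
  -- the inverse
  have hcomp : ∀ q, Intg (L' (L q) - q) := by
    intro q
    rw [← fiber_iff hR (x := x₀), ← hL', ← hL]
    exact F.left_inv _
  have hinv : ∀ l, Intg l → A' (A l) = l := by
    intro l hl
    have h1 : ContinuousOn (fun q => L' (L q) - q) univ :=
      ((hLc'.comp hLc).sub continuous_id).continuousOn
    have h2 := const_of_countable isPreconnected_univ h1 (lat_countable n)
      (fun q _ => mem_lat.2 (hcomp q)) (mem_univ (0 + l)) (mem_univ 0)
    rw [hA2 0 l hl, hA2' (L 0) (A l) (hA1 l hl)] at h2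
    have h3 : A' (A l) - l = 0 := by
      have h4 : L' (L 0) + A' (A l) - (0 + l) - (L' (L 0) - 0) = 0 := by rw [h2, sub_self]
      calc A' (A l) - l = L' (L 0) + A' (A l) - (0 + l) - (L' (L 0) - 0) := by abel
        _ = 0 := h4
    exact sub_eq_zero.1 h3
  have hinv' : ∀ q, A' (A q) = q := by
    intro q
    have h1 : A'.comp A = ContinuousLinearMap.id ℝ (V n) := eq_of_lat fun l hl => hinv l hl
    exact congrArg (fun T : V n →L[ℝ] V n => T q) h1
  -- the displacement
  choose σ hσ using orbit_univ hR x₀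
  have hper : ∀ p q, R p x₀ = R q x₀ → L p - A p = L q - A q := by
    intro p q hpq
    have h1 := (fiber_iff hR).1 hpq
    have h2 := hA2 q (p - q) h1
    rw [add_sub_cancel, map_sub] at h2
    rw [h2]
    abel
  have hcπ : ∀ q, (fun y => L (σ y) - A (σ y)) (R q x₀) = L q - A q := by
    intro q
    exact hper _ _ (hσ (R q x₀)).symm
  refine ⟨A, A', fun y => L (σ y) - A (σ y), ?_, hA1, hA1', hinv', ?_⟩
  · rw [(quot_map hR x₀).2.continuous_iff]
    have h1 : (fun y => L (σ y) - A (σ y)) ∘ (fun q => R q x₀) = fun q => L q - A q :=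
      funext hcπ
    rw [h1]
    exact hLc.sub A.continuous
  · intro x q
    obtain ⟨p, rfl⟩ : ∃ p, x = R p x₀ := ⟨σ x, hσ x⟩
    have h1 := hcπ p
    have h2 := hcπ (q + p)
    rw [hR.add] at h2
    rw [h1, h2, ← hR.add, hL, hL, ← hR.add]
    congr 1
    rw [map_add]
    abel

end Pool.Agent.K6.H72.LF
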