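import Mathlib
import Pool.Agent.K6.H72.LF.Torus

/-! Diffeomorphisms of the torus which preserve a linear foliation by dense lines, second part. -/

set_option autoImplicit false

open scoped Topology ContDiff Manifold
open Set Metric Filter

noncomputable section

namespace Pool.Agent.K6.H72.LF

open Pool.Agent.H718R2.G Pool.Agent.W564.SC Pool.Agent.K6.H72.FL

universe u

/-- the coefficient of the projection to the line `ℝ v` -/
def kap {n : ℕ} (v w : V n) : ℝ := inner ℝ v w / ‖v‖ ^ 2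

/-- the projection along `v` -/
def prj {n : ℕ} (v w : V n) : V n := w - kap v w • v

lemma kap_add {n : ℕ} (v a b : V n) : kap v (a + b) = kap v a + kap v b := by
  rw [kap, inner_add_right, add_div]; rfl

lemma kap_smul {n : ℕ} (v a : V n) (t : ℝ) : kap v (t • a) = t * kap v a := by
  rw [kap, real_inner_smul_right, mul_div_assoc]; rfl

lemma kap_self {n : ℕ} {v : V n} (hv : v ≠ 0) : kap v v = 1 := by
  rw [kap, real_inner_self_eq_norm_sq]
  exact div_self (pow_ne_zero _ (norm_ne_zero_iff.2 hv))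

lemma prj_add {n : ℕ} (v a b : V n) : prj v (a + b) = prj v a + prj v b := by
  rw [prj, kap_add, add_smul, prj, prj]; abel

lemma prj_smul {n : ℕ} (v a : V n) (t : ℝ) : prj v (t • a) = t • prj v a := by
  rw [prj, kap_smul, prj, smul_sub, mul_smul]

lemma prj_self {n : ℕ} {v : V n} (hv : v ≠ 0) (t : ℝ) : prj v (t • v) = 0 := by
  rw [prj_smul, prj, kap_self hv, one_smul, sub_self, smul_zero]

lemma eq_of_prj {n : ℕ} {v w : V n} (h : prj v w = 0) : w = kap v w • v := sub_eq_zero.1 h

lemma kap_cont {n : ℕ} (v : V n) : Continuous (kap v) :=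
  (continuous_const.inner continuous_id).div_const _

lemma prj_cont {n : ℕ} (v : V n) : Continuous (prj v) :=
  continuous_id.sub ((kap_cont v).smul continuous_const)

variable {n : ℕ} {N : Type u} [TopologicalSpace N] [ChartedSpace (V n) N] [IsManifold (𝓡 n) ∞ N]
  [T2Space N] [CompactSpace N]

/-- `F` maps the half-lines `{R (s v) x : s ≥ 0}` into half-lines: it preserves the foliation by the
lines parallel to `v` and its orientation. -/
def HalfLines {n : ℕ} {N : Type*} (R : V n → N → N) (F : N → N) (v : V n) : Prop :=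
  ∀ x, ∀ s : ℝ, 0 ≤ s → ∃ t : ℝ, 0 ≤ t ∧ F (R (s • v) x) = R (t • v) (F x)

/-- `A` is the linear part of `F`: the map induced on the first homology group of the torus. -/
def IsLinPart {n : ℕ} {N : Type*} [TopologicalSpace N] (R : V n → N → N) (F : N → N)
    (A : V n →L[ℝ] V n) : Prop :=
  ∃ c : N → V n, Continuous c ∧ ∀ x q, F (R q x) = R (A q + (c (R q x) - c x)) (F x)

theorem exists_line_form [ConnectedSpace N] {r : ℕ∞} (F : DiffM n N r) {R : V n → N → N}
    (hR : FreeTorus n n N R) {v : V n} (hinj : ∀ s : ℝ, Intg (s • v) → s = 0) {x₀ : N}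
    (hdense : Dense {y | ∃ s : ℝ, y = R (s • v) x₀}) (hhalf : HalfLines R F v) :
    ∃ (A A' : V n →L[ℝ] V n) (lam : ℝ) (u : N → ℝ), 0 < lam ∧ A v = lam • v ∧ Continuous u ∧
      (∀ l, Intg l → Intg (A l)) ∧ (∀ l, Intg l → Intg (A' l)) ∧ (∀ q, A' (A q) = q) ∧
      ∀ x q, F (R q x) = R (A q + (u (R q x) - u x) • v) (F x) := by
  have hv : v ≠ 0 := by
    intro h
    have h1 := hinj 1 (by rw [h, smul_zero]; exact fun j => ⟨0, by simp⟩)
    exact one_ne_zero h1
  obtain ⟨A, A', c, hc, hA, hA', hAA, hF⟩ := exists_linear_part F hR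
  have hRc : Continuous (fun q : V n × N => R q.1 q.2) := hR.smooth.continuous
  have hline : ∀ x, Continuous fun s : ℝ => R (s • v) x := by
    intro x
    exact hRc.comp ((continuous_id.smul continuous_const).prodMk continuous_const)
  have hint : ∀ x, ∀ s : ℝ, 0 ≤ s → ∃ t : ℝ, 0 ≤ t ∧
      Intg (A (s • v) + (c (R (s • v) x) - c x) - t • v) := by
    intro x s hs
    obtain ⟨t, ht, h1⟩ := hhalf x s hs
    refine ⟨t, ht, ?_⟩
    rw [← fiber_iff hR (x := F x), ← hF, h1]
  have hP : ∀ x, ∀ s : ℝ, 0 ≤ s → prj v (A (s • v) + (c (R (s • v) x) - c x)) = 0 := by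
    intro x s hs
    have h1 : ContinuousOn (fun s : ℝ => prj v (A (s • v) + (c (R (s • v) x) - c x))) (Ici 0) := by
      refine Continuous.continuousOn ?_
      exact (prj_cont v).comp ((A.continuous.comp (continuous_id.smul continuous_const)).add
        ((hc.comp (hline x)).sub continuous_const))
    have h2 := const_of_countable (isPreconnected_Ici (a := (0 : ℝ))) h1
      ((lat_countable n).image (prj v)) (fun s hs => by
        obtain ⟨t, _, h3⟩ := hint x s hs
        refine ⟨_, h3, ?_⟩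
        rw [sub_eq_add_neg, prj_add, ← neg_smul, prj_self hv, add_zero])
      (show s ∈ Ici (0 : ℝ) from hs) (show (0 : ℝ) ∈ Ici (0 : ℝ) from le_refl (0 : ℝ))
    rw [h2]
    show prj v (A ((0 : ℝ) • v) + (c (R ((0 : ℝ) • v) x) - c x)) = 0
    rw [zero_smul, map_zero, hR.zero, sub_self, add_zero, prj, kap]
    simp
  obtain ⟨C, hC⟩ : ∃ C, ∀ y, ‖prj v (c y)‖ ≤ C := by
    obtain ⟨C, hC⟩ := isCompact_univ.exists_bound_of_continuousOn ((prj_cont v).comp hc).continuousOn
    exact ⟨C, fun y => hC y (mem_univ _)⟩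
  have hneg : ∀ a : V n, prj v (-a) = -prj v a := by
    intro a
    have h := prj_smul v a (-1)
    rwa [neg_one_smul, neg_one_smul] at h
  have hPA : prj v (A v) = 0 := by
    by_contra hne
    have hpos : 0 < ‖prj v (A v)‖ := norm_pos_iff.2 hne
    have hC0 : 0 ≤ C := (norm_nonneg _).trans (hC x₀)
    obtain ⟨s, hs⟩ : ∃ s : ℝ, s = (2 * C + 1) / ‖prj v (A v)‖ := ⟨_, rfl⟩
    have hs0 : 0 ≤ s := by rw [hs]; positivity
    have h1 := hP x₀ s hs0
    rw [prj_add, map_smul, prj_smul, sub_eq_add_neg, prj_add, hneg] at h1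
    have h2 : s • prj v (A v) = prj v (c x₀) - prj v (c (R (s • v) x₀)) := by
      rw [← sub_eq_zero]
      rw [← h1]
      abel
    have h3 : ‖s • prj v (A v)‖ ≤ 2 * C := by
      rw [h2]
      refine (norm_sub_le _ _).trans ?_
      have := hC x₀
      have := hC (R (s • v) x₀)
      linarith
    rw [norm_smul, Real.norm_eq_abs, abs_of_nonneg hs0, hs, div_mul_cancel₀ _ hpos.ne'] at h3
    linarith
  obtain ⟨lam, hlam⟩ : ∃ lam, lam = kap v (A v) := ⟨_, rfl⟩
  have hAv : A v = lam • v := by rw [hlam]; exact eq_of_prj hPA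
  have hc1 : ∀ x, ∀ s : ℝ, 0 ≤ s → prj v (c (R (s • v) x) - c x) = 0 := by
    intro x s hs
    have h1 := hP x s hs
    rwa [map_smul, hAv, smul_smul, prj_add, prj_self hv, zero_add] at h1
  have hc2 : ∀ s : ℝ, prj v (c (R (s • v) x₀) - c x₀) = 0 := by
    intro s
    rcases le_total 0 s with hs | hs
    · exact hc1 x₀ s hs
    · have h1 := hc1 (R (s • v) x₀) (-s) (by linarith)
      rw [← hR.add, ← add_smul, neg_add_cancel, zero_smul, hR.zero] at h1
      rw [← neg_sub, hneg, h1, neg_zero]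
  have hc3 : ∀ y, prj v (c y - c x₀) = 0 := by
    have h1 : IsClosed {y | prj v (c y - c x₀) = 0} :=
      isClosed_eq ((prj_cont v).comp (hc.sub continuous_const)) continuous_const
    have h2 : {y | ∃ s : ℝ, y = R (s • v) x₀} ⊆ {y | prj v (c y - c x₀) = 0} := by
      rintro _ ⟨s, rfl⟩
      exact hc2 s
    intro y
    have h3 : y ∈ closure {y | ∃ s : ℝ, y = R (s • v) x₀} := hdense y
    exact (closure_minimal h2 h1) h3
  obtain ⟨u, hu⟩ : ∃ u : N → ℝ, u = fun y => kap v (c y - c x₀) := ⟨_, rfl⟩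
  have hu1 : ∀ y, c y - c x₀ = u y • v := by
    intro y
    rw [hu]
    exact eq_of_prj (hc3 y)
  have huc : Continuous u := by
    rw [hu]
    exact (kap_cont v).comp (hc.sub continuous_const)
  have hF2 : ∀ x q, F (R q x) = R (A q + (u (R q x) - u x) • v) (F x) := by
    intro x q
    rw [hF x q, sub_smul, ← hu1, ← hu1]
    congr 1
    abel
  have hlam0 : lam ≠ 0 := by
    intro h
    have h1 := hAA v
    rw [hAv, h, zero_smul, map_zero] at h1
    exact hv h1.symm
  have hlam1 : 0 ≤ lam := by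
    obtain ⟨D, hD⟩ : ∃ D, ∀ y, |u y| ≤ D := by
      obtain ⟨D, hD⟩ := isCompact_univ.exists_bound_of_continuousOn huc.continuousOn
      exact ⟨D, fun y => hD y (mem_univ _)⟩
    have hD0 : 0 ≤ D := (abs_nonneg _).trans (hD x₀)
    by_contra hneg'
    push Not at hneg'
    obtain ⟨s, hs⟩ : ∃ s : ℝ, s = (2 * D + 1) / (-lam) := ⟨_, rfl⟩
    have hl : 0 < -lam := by linarith
    have hs0 : 0 ≤ s := by rw [hs]; positivity
    obtain ⟨t, ht, h1⟩ := hhalf x₀ s hs0
    rw [hF2, fiber_iff hR, map_smul, hAv, smul_smul, ← add_smul, ← sub_smul] at h1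
    have h2 := hinj _ h1
    have h3 : s * lam = -(2 * D + 1) := by
      have h5 : lam ≠ 0 := hlam0
      rw [hs]
      field_simp
    have h4 := abs_le.1 (hD x₀)
    have h5 := abs_le.1 (hD (R (s • v) x₀))
    linarith
  exact ⟨A, A', lam, u, lt_of_le_of_ne hlam1 (Ne.symm hlam0), hAv, huc, hA, hA', hAA, hF2⟩

/-- **Linear foliations by dense lines.** -/
theorem closable_dense_lines [ConnectedSpace N] (r : ℕ∞) (hr : 1 ≤ r) (F : DiffM n N r)
    {R : V n → N → N} (hR : FreeTorus n n N R) {v : V n} (hinj : ∀ s : ℝ, Intg (s • v) → s = 0)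
    {x₀ : N} (hdense : Dense {y | ∃ s : ℝ, y = R (s • v) x₀}) (hhalf : HalfLines R F v)
    (hlin : ∀ A, IsLinPart R F A → IdPlusHyp A v) {z : N} (hz : NonWand F z) :
    Closable n N r F z := by
  have hv : v ≠ 0 := by
    intro h
    have h1 := hinj 1 (by rw [h, smul_zero]; exact fun j => ⟨0, by simp⟩)
    exact one_ne_zero h1
  obtain ⟨A, A', lam, u, hlam, hAv, hu, _, _, _, hF⟩ := exists_line_form F hR hinj hdense hhalf
  refine closable_linear r hr F hR hv hlam hAv (hlin A ⟨fun y => u y • v,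
    hu.smul continuous_const, fun x q => ?_⟩) hu hF hz
  rw [hF, sub_smul]

/-! ### dimension two -/

lemma two_ext {a b : V 2} (h0 : a 0 = b 0) (h1 : a 1 = b 1) : a = b := by
  ext j
  fin_cases j
  · exact h0
  · exact h1

/-- an irrational direction in the plane -/
lemma irr_two {v : V 2} (hinj : ∀ s : ℝ, Intg (s • v) → s = 0) : v 0 ≠ 0 ∧
    ∀ a b : ℤ, (a : ℝ) * v 0 + b * v 1 = 0 → a = 0 ∧ b = 0 := by
  have h0 : v 0 ≠ 0 := by
    intro h
    by_cases h1 : v 1 = 0
    · have h2 := hinj 1 (fun j => ⟨0, by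
        fin_cases j
        · simp [h]
        · simp [h1]⟩)
      exact one_ne_zero h2
    · have h2 := hinj (v 1)⁻¹ (fun j => by
        fin_cases j
        · exact ⟨0, by simp [h]⟩
        · exact ⟨1, by simp [h1]⟩)
      exact inv_ne_zero h1 h2
  refine ⟨h0, fun a b hab => ?_⟩
  have hb : b = 0 := by
    by_contra hb
    have hb' : (b : ℝ) ≠ 0 := by exact_mod_cast hb
    have h2 := hinj (b / v 0) (fun j => by
      fin_cases j
      · refine ⟨b, ?_⟩
        show (b / v 0 : ℝ) * v 0 = b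
        field_simp
      · refine ⟨-a, ?_⟩
        show (b / v 0 : ℝ) * v 1 = ((-a : ℤ) : ℝ)
        push_cast
        field_simp
        linarith)
    exact (div_ne_zero hb' h0) h2
  have ha : a = 0 := by
    rw [hb, Int.cast_zero, zero_mul, add_zero] at hab
    rcases mul_eq_zero.1 hab with h | h
    · exact_mod_cast h
    · exact absurd h h0
  exact ⟨ha, hb⟩

lemma dense_two {N : Type u} [TopologicalSpace N] [ChartedSpace (V 2) N] [IsManifold (𝓡 2) ∞ N]
    [T2Space N] [CompactSpace N] [ConnectedSpace N] {R : V 2 → N → N} (hR : FreeTorus 2 2 N R)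
    {v : V 2} (hinj : ∀ s : ℝ, Intg (s • v) → s = 0) (x₀ : N) :
    Dense {y | ∃ s : ℝ, y = R (s • v) x₀} := by
  obtain ⟨h0, h1⟩ := irr_two hinj
  have hirr : Irrational (v 1 / v 0) := by
    rintro ⟨q, hq⟩
    have h2 := h1 q.num (-q.den) (by
      have h3 : (q : ℝ) = q.num / q.den := by exact_mod_cast (Rat.num_div_den q).symm
      have h4 : (q.den : ℝ) ≠ 0 := by exact_mod_cast q.den_nz
      rw [h3, div_eq_div_iff h4 h0] at hq
      push_cast
      linarith)
    have h3 : (q.den : ℤ) = 0 := by have := h2.2; omega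
    exact q.den_nz (by exact_mod_cast h3)
  have hd : Dense ((AddSubgroup.closure {(1 : ℝ), v 1 / v 0} : AddSubgroup ℝ) : Set ℝ) := by
    rw [dense_addSubgroupClosure_pair_iff, one_div]
    exact irrational_inv_iff.2 hirr
  have hRc : Continuous (fun q : V 2 => R q x₀) :=
    hR.smooth.continuous.comp (continuous_id.prodMk continuous_const)
  intro y
  obtain ⟨q, rfl⟩ := orbit_univ hR x₀ y
  rw [mem_closure_iff_nhds]
  intro W hW
  obtain ⟨ε, hε, hball⟩ := Metric.mem_nhds_iff.1 (hRc.continuousAt hW)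
  -- approximate
  obtain ⟨t, ht1, ht2⟩ := Metric.mem_closure_iff.1 (hd (q 1 - v 1 / v 0 * q 0)) ε hε
  obtain ⟨a, b, hab⟩ := AddSubgroup.mem_closure_pair.1 ht1
  -- `t = a + b ω`, `l = (-b, a)`, `s = (q 0 + b) / v 0`
  let l : V 2 := WithLp.toLp 2 ![((-b : ℤ) : ℝ), ((a : ℤ) : ℝ)]
  have hl : Intg l := by
    intro j
    fin_cases j
    · exact ⟨-b, rfl⟩
    · exact ⟨a, rfl⟩
  obtain ⟨s, hs⟩ : ∃ s : ℝ, s = (q 0 + b) / v 0 := ⟨_, rfl⟩
  refine ⟨R (s • v + l) x₀, hball ?_, s, ?_⟩
  · rw [mem_ball, dist_eq_norm]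
    have e0 : (s • v + l - q) 0 = 0 := by
      show s * v 0 + ((-b : ℤ) : ℝ) - q 0 = 0
      rw [hs, div_mul_cancel₀ _ h0]
      push_cast
      ring
    have e1 : (s • v + l - q) 1 = t - (q 1 - v 1 / v 0 * q 0) := by
      show s * v 1 + ((a : ℤ) : ℝ) - q 1 = _
      rw [hs, ← hab]
      simp only [zsmul_eq_mul]
      field_simp
      ring
    rw [EuclideanSpace.norm_eq, Fin.sum_univ_two, e0, e1]
    rw [norm_zero, zero_pow two_ne_zero, zero_add, Real.sqrt_sq (norm_nonneg _)]
    rw [dist_comm, Real.dist_eq] at ht2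
    exact ht2
  · rw [hR.add, (hR.free l x₀).2 hl]

lemma coord_two (A : V 2 →L[ℝ] V 2) (q : V 2) (j : Fin 2) :
    A q j = q 0 * A (EuclideanSpace.single 0 1) j + q 1 * A (EuclideanSpace.single 1 1) j := by
  have h1 : q = q 0 • (EuclideanSpace.single 0 (1 : ℝ) : V 2) +
      q 1 • (EuclideanSpace.single 1 (1 : ℝ) : V 2) := by
    refine two_ext ?_ ?_
    · simp
    · simp
  conv_lhs => rw [h1, map_add, map_smul, map_smul]
  rfl

/-- In dimension two, an integral invertible matrix with a positive eigenvalue with irrational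
eigenvector is the identity or hyperbolic. -/
lemma idPlusHyp_two {A A' : V 2 →L[ℝ] V 2} (hA : ∀ l, Intg l → Intg (A l))
    (hA' : ∀ l, Intg l → Intg (A' l)) (hAA : ∀ q, A' (A q) = q) {v : V 2}
    (hinj : ∀ s : ℝ, Intg (s • v) → s = 0) {lam : ℝ} (hlam : 0 < lam) (hAv : A v = lam • v) :
    IdPlusHyp A v := by
  obtain ⟨h0, h1⟩ := irr_two hinj
  have hv : v ≠ 0 := by
    intro h
    exact h0 (by rw [h]; rfl)
  have hs0 : Intg (EuclideanSpace.single (0 : Fin 2) (1 : ℝ) : V 2) := by
    intro j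
    fin_cases j
    · exact ⟨1, by simp⟩
    · exact ⟨0, by simp⟩
  have hs1 : Intg (EuclideanSpace.single (1 : Fin 2) (1 : ℝ) : V 2) := by
    intro j
    fin_cases j
    · exact ⟨0, by simp⟩
    · exact ⟨1, by simp⟩
  -- the matrices
  obtain ⟨a, ha⟩ := hA _ hs0 0
  obtain ⟨c, hc⟩ := hA _ hs0 1
  obtain ⟨b, hb⟩ := hA _ hs1 0
  obtain ⟨d, hd⟩ := hA _ hs1 1
  obtain ⟨a', ha'⟩ := hA' _ hs0 0
  obtain ⟨c', hc'⟩ := hA' _ hs0 1
  obtain ⟨b', hb'⟩ := hA' _ hs1 0
  obtain ⟨d', hd'⟩ := hA' _ hs1 1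
  have hA0 : ∀ q, A q 0 = a * q 0 + b * q 1 := by
    intro q; rw [coord_two, ha, hb]; ring
  have hA1 : ∀ q, A q 1 = c * q 0 + d * q 1 := by
    intro q; rw [coord_two, hc, hd]; ring
  have hA0' : ∀ q, A' q 0 = a' * q 0 + b' * q 1 := by
    intro q; rw [coord_two, ha', hb']; ring
  have hA1' : ∀ q, A' q 1 = c' * q 0 + d' * q 1 := by
    intro q; rw [coord_two, hc', hd']; ring
  -- determinant
  have hdet : (a' * d' - b' * c') * (a * d - b * c) = 1 := by
    have e1 := congrArg (fun q : V 2 => q 0) (hAA (EuclideanSpace.single 0 1))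
    have e2 := congrArg (fun q : V 2 => q 1) (hAA (EuclideanSpace.single 0 1))
    have e3 := congrArg (fun q : V 2 => q 0) (hAA (EuclideanSpace.single 1 1))
    have e4 := congrArg (fun q : V 2 => q 1) (hAA (EuclideanSpace.single 1 1))
    simp only [hA0', hA1', ha, hb, hc, hd] at e1 e2 e3 e4
    simp at e1 e2 e3 e4
    have f1 : a' * a + b' * c = 1 := by exact_mod_cast e1
    have f2 : c' * a + d' * c = 0 := by exact_mod_cast e2
    have f3 : a' * b + b' * d = 0 := by exact_mod_cast e3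
    have f4 : c' * b + d' * d = 1 := by exact_mod_cast e4
    calc (a' * d' - b' * c') * (a * d - b * c) =
        (a' * a + b' * c) * (c' * b + d' * d) - (a' * b + b' * d) * (c' * a + d' * c) := by ring
      _ = 1 := by rw [f1, f2, f3, f4]; ring
  have hdet2 : |(a * d - b * c : ℤ)| = 1 := by
    have h2 : IsUnit (a * d - b * c) := IsUnit.of_mul_eq_one _ (by rw [mul_comm]; exact hdet)
    exact Int.isUnit_iff_abs_eq.1 h2
  have hdet3 : |((a : ℝ) * d - b * c)| = 1 := by exact_mod_cast hdet2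
  have ev0 : (a : ℝ) * v 0 + b * v 1 = lam * v 0 := by
    rw [← hA0, hAv]; rfl
  have ev1 : (c : ℝ) * v 0 + d * v 1 = lam * v 1 := by
    rw [← hA1, hAv]; rfl
  by_cases hl1 : lam = 1
  · -- the identity
    rw [hl1, one_mul] at ev0 ev1
    obtain ⟨g1, g2⟩ := h1 (a - 1) b (by push_cast; linarith)
    obtain ⟨g3, g4⟩ := h1 c (d - 1) (by push_cast; linarith)
    have hid : ∀ q, A q = q := by
      intro q
      refine two_ext ?_ ?_
      · rw [hA0, g2, show a = 1 by omega]; simp
      · rw [hA1, g3, show d = 1 by omega]; simp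
    refine ⟨⊤, ⊥, ⊥, 1, 1 / 2, one_pos, by norm_num, by norm_num, ?_, ?_, ?_, ?_⟩
    · exact fun w => ⟨w, trivial, 0, rfl, 0, rfl, by simp⟩
    · exact fun x _ => ⟨0, by rw [hid, sub_self, zero_smul]⟩
    · intro y hy
      rw [Submodule.mem_bot] at hy
      rw [hy]
      refine ⟨by simp, fun j => ?_⟩
      rw [norm_zero, mul_zero]
      have : (A : V 2 → V 2)^[j] 0 = 0 := Function.iterate_fixed (map_zero A) j
      rw [this, norm_zero]
    · intro y hy
      rw [Submodule.mem_bot] at hy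
      rw [hy]
      refine ⟨by simp, fun j => ?_⟩
      rw [norm_zero]
      positivity
  · -- hyperbolic
    obtain ⟨μ, hμ⟩ : ∃ μ : ℝ, μ = a + d - lam := ⟨_, rfl⟩
    have hchar : lam ^ 2 - (a + d) * lam + (a * d - b * c) = 0 := by
      have e1 : (a - lam) * v 0 + b * v 1 = 0 := by linarith
      have e2 : (c : ℝ) * v 0 + (d - lam) * v 1 = 0 := by linarith
      have e3 : ((a - lam) * (d - lam) - b * c) * v 0 = 0 := by
        calc ((a - lam) * (d - lam) - b * c) * v 0 =
            (d - lam) * ((a - lam) * v 0 + b * v 1) - b * (c * v 0 + (d - lam) * v 1) := by ring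
          _ = 0 := by rw [e1, e2]; ring
      have e4 := (mul_eq_zero.1 e3).resolve_right h0
      linarith
    have hprod : lam * μ = a * d - b * c := by rw [hμ]; linarith
    have hμabs : |μ| = lam⁻¹ := by
      have h2 : |lam * μ| = 1 := by rw [hprod]; exact hdet3
      rw [abs_mul, abs_of_pos hlam] at h2
      exact eq_inv_of_mul_eq_one_right h2
    have hne : lam - μ ≠ 0 := by
      intro h
      have h2 : μ = lam := by linarith
      rw [h2, abs_of_pos hlam] at hμabs
      have h3 : lam * lam = 1 := by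
        nth_rw 2 [hμabs]
        exact mul_inv_cancel₀ hlam.ne'
      have h4 : (lam - 1) * (lam + 1) = 0 := by linarith
      rcases mul_eq_zero.1 h4 with h5 | h5
      · exact hl1 (by linarith)
      · linarith
    -- Cayley-Hamilton
    have hCH : ∀ q, A (A q) = (a + d : ℝ) • A q - (a * d - b * c : ℝ) • q := by
      intro q
      refine two_ext ?_ ?_
      · show A (A q) 0 = (a + d : ℝ) * A q 0 - (a * d - b * c : ℝ) * q 0
        rw [hA0 (A q), hA0, hA1]
        ring
      · show A (A q) 1 = (a + d : ℝ) * A q 1 - (a * d - b * c : ℝ) * q 1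
        rw [hA1 (A q), hA0, hA1]
        ring
    -- eigenspaces
    let Eg : ℝ → Submodule ℝ (V 2) := fun t =>
      { carrier := {q | A q = t • q}
        add_mem' := by
          intro p q hp hq
          show A (p + q) = t • (p + q)
          rw [map_add, smul_add, show A p = t • p from hp, show A q = t • q from hq]
        zero_mem' := by show A 0 = t • (0 : V 2); rw [map_zero, smul_zero]
        smul_mem' := by
          intro r q hq
          show A (r • q) = t • (r • q)
          rw [map_smul, show A q = t • q from hq, smul_comm] }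
    have hEg : ∀ t, ∀ q ∈ Eg t, A q = t • q := fun _ _ h => h
    have hEgm : ∀ t, ∀ q ∈ Eg t, A q ∈ Eg t := by
      intro t q hq
      rw [hEg t q hq]
      exact (Eg t).smul_mem t hq
    have hEgi : ∀ t, ∀ q ∈ Eg t, ∀ j : ℕ, ‖(A : V 2 → V 2)^[j] q‖ = |t| ^ j * ‖q‖ := by
      intro t q hq j
      have h2 : (A : V 2 → V 2)^[j] q = t ^ j • q := by
        induction j with
        | zero => simp
        | succ j ih =>
          rw [Function.iterate_succ_apply', ih, map_smul, hEg t q hq, smul_smul, pow_succ]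
      rw [h2, norm_smul, norm_pow, Real.norm_eq_abs]
    have hdec : ∀ w, ∃ y ∈ Eg lam, ∃ z ∈ Eg μ, w = y + z := by
      intro w
      refine ⟨(lam - μ)⁻¹ • (A w - μ • w), (Eg lam).smul_mem _ ?_,
        (lam - μ)⁻¹ • (lam • w - A w), (Eg μ).smul_mem _ ?_, ?_⟩
      · show A (A w - μ • w) = lam • (A w - μ • w)
        rw [map_sub, map_smul, hCH, ← hprod, show (a + d : ℝ) = lam + μ by rw [hμ]; ring]
        module
      · show A (lam • w - A w) = μ • (lam • w - A w)
        rw [map_sub, map_smul, hCH, ← hprod, show (a + d : ℝ) = lam + μ by rw [hμ]; ring]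
        module
      · rw [← smul_add, sub_add_sub_cancel', ← sub_smul, smul_smul, inv_mul_cancel₀ hne, one_smul]
    rcases lt_or_gt_of_ne hl1 with hlt | hgt
    · refine ⟨⊥, Eg lam, Eg μ, 1, lam, one_pos, hlam, hlt, ?_, ?_, ?_, ?_⟩
      · intro w
        obtain ⟨y, hy, z, hz, h⟩ := hdec w
        exact ⟨0, rfl, y, hy, z, hz, by rw [h, zero_add]⟩
      · intro x hx
        rw [Submodule.mem_bot] at hx
        exact ⟨0, by rw [hx]; simp⟩
      · intro y hy
        refine ⟨hEgm _ _ hy, fun j => ?_⟩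
        rw [hEgi lam y hy j, abs_of_pos hlam, one_mul]
      · intro y hy
        refine ⟨hEgm _ _ hy, fun j => ?_⟩
        rw [hEgi μ y hy j, hμabs, one_mul, ← mul_assoc, ← mul_pow, mul_inv_cancel₀ hlam.ne', one_pow,
          one_mul]
    · refine ⟨⊥, Eg μ, Eg lam, 1, lam⁻¹, one_pos, inv_pos.2 hlam, inv_lt_one_of_one_lt₀ hgt,
        ?_, ?_, ?_, ?_⟩
      · intro w
        obtain ⟨y, hy, z, hz, h⟩ := hdec w
        exact ⟨0, rfl, z, hz, y, hy, by rw [h, zero_add, add_comm]⟩
      · intro x hx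
        rw [Submodule.mem_bot] at hx
        exact ⟨0, by rw [hx]; simp⟩
      · intro y hy
        refine ⟨hEgm _ _ hy, fun j => ?_⟩
        rw [hEgi μ y hy j, hμabs, one_mul]
      · intro y hy
        refine ⟨hEgm _ _ hy, fun j => ?_⟩
        rw [hEgi lam y hy j, abs_of_pos hlam, one_mul, ← mul_assoc, ← mul_pow,
          inv_mul_cancel₀ hlam.ne', one_pow, one_mul]

/-- **Irrational linear foliations of the torus `𝕋²`** -/
theorem closable_two {N : Type u} [TopologicalSpace N] [ChartedSpace (V 2) N] [IsManifold (𝓡 2) ∞ N]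
    [T2Space N] [CompactSpace N] [ConnectedSpace N] (r : ℕ∞) (hr : 1 ≤ r) (F : DiffM 2 N r)
    {R : V 2 → N → N} (hR : FreeTorus 2 2 N R) {v : V 2} (hinj : ∀ s : ℝ, Intg (s • v) → s = 0)
    (hhalf : HalfLines R F v) {z : N} (hz : NonWand F z) : Closable 2 N r F z := by
  have hv : v ≠ 0 := by
    intro h
    have h1 := hinj 1 (by rw [h, smul_zero]; exact fun j => ⟨0, by simp⟩)
    exact one_ne_zero h1
  obtain ⟨A, A', lam, u, hlam, hAv, hu, hA, hA', hAA, hF⟩ :=
    exists_line_form F hR hinj (dense_two hR hinj z) hhalf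
  exact closable_linear r hr F hR hv hlam hAv (idPlusHyp_two hA hA' hAA hinj hlam hAv) hu hF hz

end Pool.Agent.K6.H72.LF
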