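import Mathlib
import Pool.Agent.K6.H72.LF.Foliation

/-! The points which can be closed. -/

set_option autoImplicit false

open scoped Topology ContDiff Manifold
open Set Metric Filter

noncomputable section

namespace Pool.Agent.K6.H72.LF

open Pool.Agent.H718R2.G Pool.Agent.W564.SC Pool.Agent.K6.H72.FL

universe u

/-- `N` is the torus `𝕋ⁿ` (with the translations `R`), `F` preserves the foliation by the lines parallel
to `v` and its orientation, the lines are injective, and `y` is a nonwandering point of `F`. If `n = 2`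
(irrational linear foliations) nothing else is required; otherwise the lines are dense and the linear
part `A` of `F` is, modulo `v`, the sum of the identity and a hyperbolic map. -/
def IsTorusPt (n : ℕ) (N : Type u) [TopologicalSpace N] [ChartedSpace (V n) N] (F : N → N)
    (y : N) : Prop :=
  ConnectedSpace N ∧ NonWand F y ∧ ∃ (R : V n → N → N) (v : V n), FreeTorus n n N R ∧
    HalfLines R F v ∧ (∀ s : ℝ, Intg (s • v) → s = 0) ∧
    (n = 2 ∨ ((∀ x, Dense {y | ∃ s : ℝ, y = R (s • v) x}) ∧ ∀ A, IsLinPart R F A → IdPlusHyp A v))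

theorem closable_torusPt {n : ℕ} {N : Type u} [TopologicalSpace N] [ChartedSpace (V n) N]
    [IsManifold (𝓡 n) ∞ N] [T2Space N] [CompactSpace N] (r : ℕ∞) (hr : 1 ≤ r) (F : DiffM n N r)
    {y : N} (h : IsTorusPt n N F y) : Closable n N r F y := by
  obtain ⟨hN, hy, R, v, hR, hF, hv, hn | ⟨hd, hA⟩⟩ := h
  · subst hn
    exact closable_two r hr F hR hv hF hy
  · exact closable_dense_lines r hr F hR hv (hd y) hF hA hy

theorem main {n : ℕ} {N : Type u} [TopologicalSpace N] [ChartedSpace (V n) N]
    [IsManifold (𝓡 n) ∞ N] [T2Space N] [CompactSpace N] (r : ℕ∞) (hr : 1 ≤ r)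
    (F : DiffM n N r) (z : N)
    (h : ∀ U : Set (DiffM n N r), IsOpen[strongTop n N r] U → F ∈ U →
      ∃ F' ∈ U, z ∈ closure {y | IsTorusPt n N F' y ∨ IsLinePt n N r F' y}) :
    Closable n N r F z := by
  refine Pool.Agent.TH382.HS.closable_of_limit F z fun U hU hFU => ?_
  obtain ⟨F', hF', hz⟩ := h U hU hFU
  refine ⟨F', hF', closure_mono (fun y hy => ?_) hz⟩
  rcases hy with hy | hy
  · exact closable_torusPt r hr F' hy
  · obtain ⟨k, R, K, A, v, lam, g, hR, hv, hA, hg, hrec⟩ := hy
    exact closable_line r hr F' hR hv hA hg hrec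

end Pool.Agent.K6.H72.LF
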